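import Pool.Agent.R432.C5
import Pool.Agent.R432.JG.G1

/-! The kernel of the Laplacian for all twists by primes that are controlled by a gadget and by leaves. -/

set_option autoImplicit false
set_option linter.unusedSectionVars false

open scoped Classical

namespace Pool.Agent.NH4.CG

open Pool.Agent.Y692.QS
open Pool.Agent.Y715.T.Rec (cs)
open Pool.Agent.Y715.T.RecG (Pq)
open Pool.Agent.Y703.CT (Dt pD Ker)
open Pool.Agent.R432.C (JL πL eL rec_cs pq_dvd)
open Pool.Agent.R432.JG (LeafP)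

/-- `Q` controls the primes in `G`; the primes in `L` are leaves at `o` -/
structure Gad (o : Ei) (Q : Finset Ei) (G L : Set Ei) : Prop where
  po : Pq o
  pQ : ∀ x ∈ Q, Pq x
  pG : ∀ x ∈ G, Pq x
  pL : ∀ x ∈ L, Pq x
  oQ : o ∉ Q
  oG : o ∉ G
  oL : o ∉ L
  QG : ∀ x ∈ Q, x ∉ G
  QL : ∀ x ∈ Q, x ∉ L
  dGL : ∀ x ∈ G, x ∉ L
  nG : ∀ x ∈ G, nr x % 9 = 1
  nL : ∀ x ∈ L, nr x % 9 = 1
  qo : ∀ x ∈ Q, cs x o ≠ 0
  qq : ∀ x ∈ Q, ∀ y ∈ Q, x ≠ y → cs x y = 0
  one : ∀ x ∈ Q, ∀ l ∈ G, ∀ m ∈ G, cs x l ≠ 0 → cs x m ≠ 0 → l = m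
  ex : ∀ l ∈ G, ∀ s : ZMod 3, s ≠ 0 → ∃ x ∈ Q, cs x o + s * cs x l = 0 ∧
    ∀ y ∈ Q, cs y o + s * cs y l = 0 → y = x
  lo : ∀ l ∈ L, cs l o ≠ 0
  lQ : ∀ l ∈ L, ∀ x ∈ Q, cs l x = 0
  lG : ∀ l ∈ L, ∀ x ∈ G, cs l x = 0
  lL : ∀ l ∈ L, ∀ m ∈ L, l ≠ m → cs l m = 0

/-- the vertices -/
abbrev pi0 (o : Ei) (Q : Finset Ei) : {x : Ei // x ∈ insert o Q} → Ei := Subtype.val

/-- the exponents -/
abbrev e0 (o : Ei) (Q : Finset Ei) : {x : Ei // x ∈ insert o Q} → ZMod 3 := fun _ => 1

variable {o : Ei} {Q : Finset Ei} {G L : Set Ei}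

theorem Gad.pW (h : Gad o Q G L) {x : Ei} (hx : x ∈ insert o Q) : Pq x := by
  rcases Finset.mem_insert.1 hx with rfl | hx
  · exact h.po
  · exact h.pQ x hx

theorem Gad.dt (h : Gad o Q G L) : Dt (pi0 o Q) (e0 o Q) where
  pq := fun j => h.pW j.2
  nd := fun i j hij hd => hij (Subtype.ext (pq_dvd (h.pW j.2) (h.pW i.2) hd).symm)
  e0 := fun _ => one_ne_zero

theorem Gad.leafP (h : Gad o Q G L) {S : Finset Ei} (hS : ∀ l ∈ S, l ∈ G ∪ L) :
    LeafP (pi0 o Q) S := by
  refine ⟨fun l hl => ?_, fun l hl j hj => ?_, fun l hl => ?_⟩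
  · rcases hS l hl with h1 | h1
    · exact h.pG l h1
    · exact h.pL l h1
  · have hj2 : l ∈ insert o Q := by rw [hj]; exact j.2
    rcases Finset.mem_insert.1 hj2 with h2 | h2
    · rcases hS l hl with h1 | h1
      · exact h.oG (h2 ▸ h1)
      · exact h.oL (h2 ▸ h1)
    · rcases hS l hl with h1 | h1
      · exact h.QG l h2 h1
      · exact h.QL l h2 h1
  · rcases hS l hl with h1 | h1
    · exact h.nG l h1
    · exact h.nL l h1

/-- the row of the Laplacian at `x` -/
noncomputable def row (o : Ei) (Q S : Finset Ei) (t : Ei → ZMod 3) (v : Ei → ZMod 3) (x : Ei) : ZMod 3 :=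
  ∑ y ∈ insert o Q, cs x y * (v y - v x) + ∑ y ∈ S, t y * cs x y * (v y - v x)

/-- **the kernel** -/
theorem Gad.kernel (h : Gad o Q G L) {S : Finset Ei} (hS : ∀ l ∈ S, l ∈ G ∪ L) (t v : Ei → ZMod 3)
    (h0 : ∀ x ∈ insert o Q, row o Q S t v x = 0)
    (h1 : ∀ x ∈ S, t x ≠ 0 → row o Q S t v x = 0) :
    (∀ x ∈ Q, v x = v o) ∧ ∀ x ∈ S, t x ≠ 0 → v x = v o := by
  have h3 := Fact.mk Nat.prime_three
  -- symmetry
  have hsym : ∀ {x y : Ei}, Pq x → Pq y → cs x y = cs y x := by
    intro x y hx hy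
    by_cases hxy : x = y
    · rw [hxy]
    · exact rec_cs hy hx (fun h' => hxy h'.symm)
  -- the first part of a row at `x ∈ Q`
  have r1 : ∀ x ∈ Q, ∑ y ∈ insert o Q, cs x y * (v y - v x) = cs x o * (v o - v x) := by
    intro x hx
    rw [Finset.sum_insert h.oQ, Finset.sum_eq_zero, add_zero]
    intro y hy
    by_cases hxy : x = y
    · rw [hxy, sub_self, mul_zero]
    · rw [h.qq x hx y hy hxy, zero_mul]
  -- leaves
  have hleaf : ∀ x ∈ S, x ∈ L → t x ≠ 0 → v x = v o := by
    intro x hx hxL htx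
    have e1 := h1 x hx htx
    unfold row at e1
    rw [Finset.sum_insert h.oQ, Finset.sum_eq_zero (s := Q), Finset.sum_eq_zero (s := S), add_zero,
      add_zero] at e1
    · have e2 := (mul_eq_zero.1 e1).resolve_left (h.lo x hxL)
      exact (sub_eq_zero.1 e2).symm
    · intro y hy
      by_cases hxy : x = y
      · rw [hxy, sub_self, mul_zero]
      · rcases hS y hy with hyG | hyL
        · rw [h.lG x hxL y hyG, mul_zero, zero_mul]
        · rw [h.lL x hxL y hyL hxy, mul_zero, zero_mul]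
    · intro y hy
      rw [h.lQ x hxL y hy, zero_mul]
  -- leaves have symbol zero with `Q`
  have hQL : ∀ x ∈ Q, ∀ y ∈ L, cs x y = 0 := by
    intro x hx y hy
    rw [hsym (h.pQ x hx) (h.pL y hy)]
    exact h.lQ y hy x hx
  -- the second part of a row at `x ∈ Q` with a neighbour `l ∈ G`
  have r2 : ∀ x ∈ Q, ∀ l ∈ S, l ∈ G → cs x l ≠ 0 →
      ∑ y ∈ S, t y * cs x y * (v y - v x) = t l * cs x l * (v l - v x) := by
    intro x hx l hl hlG hc
    refine Finset.sum_eq_single_of_mem l hl fun y hy hyl => ?_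
    rcases hS y hy with hyG | hyL
    · have : cs x y = 0 := by
        by_contra hcy
        exact hyl (h.one x hx y hyG l hlG hcy hc)
      rw [this, mul_zero, zero_mul]
    · rw [hQL x hx y hyL, mul_zero, zero_mul]
  -- the controlled primes
  have hG : ∀ l ∈ S, l ∈ G → t l ≠ 0 → v l = v o := by
    intro l hl hlG htl
    obtain ⟨x, hx, hx1, -⟩ := h.ex l hlG (t l) htl
    have hc : cs x l ≠ 0 := by
      intro hc
      rw [hc, mul_zero, add_zero] at hx1
      exact h.qo x hx hx1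
    have e1 := h0 x (Finset.mem_insert_of_mem hx)
    unfold row at e1
    rw [r1 x hx, r2 x hx l hl hlG hc] at e1
    have e2 : cs x o * (v o - v l) = 0 := by
      have e3 : t l * cs x l = -cs x o := by linear_combination hx1
      rw [e3] at e1
      linear_combination e1
    exact (sub_eq_zero.1 ((mul_eq_zero.1 e2).resolve_left (h.qo x hx))).symm
  have hall : ∀ x ∈ S, t x ≠ 0 → v x = v o := by
    intro x hx htx
    rcases hS x hx with h4 | h4
    · exact hG x hx h4 htx
    · exact hleaf x hx h4 htx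
  refine ⟨?_, hall⟩
  -- the terms of the second sum
  have hterm : ∀ x y : Ei, y ∈ S → t y * cs x y * (v y - v x) = t y * cs x y * (v o - v x) := by
    intro x y hy
    by_cases hty : t y = 0
    · rw [hty, zero_mul, zero_mul, zero_mul]
    · rw [hall y hy hty]
  -- nonsingular vertices
  have hns : ∀ x ∈ Q, (∀ l ∈ S, l ∈ G → t l ≠ 0 → cs x o + t l * cs x l ≠ 0) → v x = v o := by
    intro x hx hne
    have e1 := h0 x (Finset.mem_insert_of_mem hx)
    unfold row at e1
    rw [r1 x hx] at e1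
    by_cases hex : ∃ l ∈ S, l ∈ G ∧ cs x l ≠ 0
    · obtain ⟨l, hl, hlG, hc⟩ := hex
      rw [r2 x hx l hl hlG hc, hterm x l hl] at e1
      have e2 : (cs x o + t l * cs x l) * (v o - v x) = 0 := by linear_combination e1
      have e3 : cs x o + t l * cs x l ≠ 0 := by
        by_cases htl : t l = 0
        · rw [htl, zero_mul, add_zero]
          exact h.qo x hx
        · exact hne l hl hlG htl
      exact (sub_eq_zero.1 ((mul_eq_zero.1 e2).resolve_left e3)).symm
    · push Not at hex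
      rw [Finset.sum_eq_zero, add_zero] at e1
      · exact (sub_eq_zero.1 ((mul_eq_zero.1 e1).resolve_left (h.qo x hx))).symm
      · intro y hy
        rcases hS y hy with hyG | hyL
        · rw [hex y hy hyG, mul_zero, zero_mul]
        · rw [hQL x hx y hyL, mul_zero, zero_mul]
  intro x hx
  by_cases hsing : ∀ l ∈ S, l ∈ G → t l ≠ 0 → cs x o + t l * cs x l ≠ 0
  · exact hns x hx hsing
  · push Not at hsing
    obtain ⟨l, hl, hlG, htl, hx1⟩ := hsing
    have hc : cs x l ≠ 0 := by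
      intro hc
      rw [hc, mul_zero, add_zero] at hx1
      exact h.qo x hx hx1
    obtain ⟨x0, hx0, -, hx2⟩ := h.ex l hlG (t l) htl
    have e1 := h1 l hl htl
    unfold row at e1
    have hvl := hall l hl htl
    rw [Finset.sum_insert h.oQ, hvl, sub_self, mul_zero, zero_add,
      Finset.sum_eq_single_of_mem x hx, Finset.sum_eq_zero (s := S), add_zero] at e1
    · have hc2 : cs l x ≠ 0 := by
        rw [hsym (h.pG l hlG) (h.pQ x hx)]
        exact hc
      exact sub_eq_zero.1 ((mul_eq_zero.1 e1).resolve_left hc2)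
    · intro y hy
      by_cases hty : t y = 0
      · rw [hty, zero_mul, zero_mul]
      · rw [hall y hy hty, sub_self, mul_zero]
    · intro y hy hyx
      by_cases hcy : cs y l = 0
      · rw [hsym (h.pG l hlG) (h.pQ y hy), hcy, zero_mul]
      · have hvy : v y = v o := by
          apply hns y hy
          intro m hm hmG htm hy1
          have hcm : cs y m ≠ 0 := by
            intro hcm
            rw [hcm, mul_zero, add_zero] at hy1
            exact h.qo y hy hy1
          have hml := h.one y hy m hmG l hlG hcm hcy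
          rw [hml] at hy1
          exact hyx ((hx2 y hy hy1).trans (hx2 x hx hx1).symm)
        rw [hvy, sub_self, mul_zero]

/-- **All twists are good.** -/
theorem Gad.ker (h : Gad o Q G L) {S : Finset Ei} (hS : ∀ l ∈ S, l ∈ G ∪ L)
    (t : {x : Ei // x ∈ S} → ZMod 3) : Ker (πL (pi0 o Q) t) (eL (e0 o Q) t) := by
  intro v hv
  -- functions on `Ei`
  set t' : Ei → ZMod 3 := fun x => if hx : x ∈ S then t ⟨x, hx⟩ else 0 with ht'
  set v' : Ei → ZMod 3 := fun x => if hx : x ∈ insert o Q then v (Sum.inl ⟨x, hx⟩) else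
    if hx : ∃ hx : x ∈ S, t ⟨x, hx⟩ ≠ 0 then v (Sum.inr ⟨⟨x, hx.choose⟩, hx.choose_spec⟩) else 0
    with hv'
  have hdis : ∀ x ∈ S, x ∉ insert o Q := by
    intro x hx hx2
    exact (h.leafP hS).ne x hx ⟨x, hx2⟩ rfl
  have t1 : ∀ i : {x : Ei // x ∈ S}, t' i.1 = t i := by
    intro i
    rw [ht']
    simp only [dif_pos i.2]
  have v1 : ∀ j : {x : Ei // x ∈ insert o Q}, v' j.1 = v (Sum.inl j) := by
    intro j
    rw [hv']
    simp only [dif_pos j.2]
  have v2 : ∀ i : {i : {x : Ei // x ∈ S} // t i ≠ 0}, v' i.1.1 = v (Sum.inr i) := by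
    intro i
    rw [hv']
    simp only [dif_neg (hdis i.1.1 i.1.2)]
    rw [dif_pos ⟨i.1.2, i.2⟩]
  have hrow : ∀ x : JL {x : Ei // x ∈ insert o Q} t, row o Q S t' v' (πL (pi0 o Q) t x) = 0 := by
    intro x
    have hx := hv x
    have hvx : v' (πL (pi0 o Q) t x) = v x := by
      rcases x with j | i
      · exact v1 j
      · exact v2 i
    rw [Fintype.sum_sum_type] at hx
    unfold row
    rw [← hx, ← Finset.sum_coe_sort (insert o Q)]
    congr 1
    · refine Finset.sum_congr rfl fun j _ => ?_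
      rw [hvx, v1 j]
      show _ = (1 : ZMod 3) * _ * _
      rw [one_mul]
      rfl
    · have e1 : ∑ y ∈ S, t' y * cs (πL (pi0 o Q) t x) y * (v' y - v' (πL (pi0 o Q) t x)) =
          ∑ i ∈ Finset.univ.filter (fun i : {x : Ei // x ∈ S} => t i ≠ 0),
            t' i.1 * cs (πL (pi0 o Q) t x) i.1 * (v' i.1 - v' (πL (pi0 o Q) t x)) := by
        rw [Finset.sum_filter, ← Finset.sum_coe_sort S]
        refine Finset.sum_congr rfl fun i _ => ?_
        by_cases hi : t i = 0
        · rw [if_neg (not_not.2 hi), t1, hi, zero_mul, zero_mul]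
        · rw [if_pos hi]
      rw [e1, Finset.sum_subtype (Finset.univ.filter (fun i : {x : Ei // x ∈ S} => t i ≠ 0))
        (p := fun i => t i ≠ 0) (fun i => by simp)]
      refine Finset.sum_congr rfl fun i _ => ?_
      rw [hvx, v2 i, t1]
      rfl
  obtain ⟨k1, k2⟩ := h.kernel hS t' v'
    (fun x hx => hrow (Sum.inl ⟨x, hx⟩))
    (fun x hx htx => hrow (Sum.inr ⟨⟨x, hx⟩, by rw [← t1 ⟨x, hx⟩]; exact htx⟩))
  have key : ∀ x : JL {x : Ei // x ∈ insert o Q} t, v x = v' o := by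
    rintro (j | i)
    · rw [← v1 j]
      rcases Finset.mem_insert.1 j.2 with hj | hj
      · rw [hj]
      · exact k1 j.1 hj
    · rw [← v2 i]
      exact k2 i.1.1 i.1.2 (by rw [t1]; exact i.2)
  intro x y
  rw [key x, key y]

end Pool.Agent.NH4.CG
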