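import Pool.Agent.NH4.CF.Cj
import Pool.Agent.NH4.CF.Tw
import Pool.Agent.NH4.CG.Ker

/-! The existence of gadgets and of leaves. -/

set_option autoImplicit false
set_option linter.unusedSectionVars false

open scoped Classical

namespace Pool.Agent.NH4.CG

open Pool.Agent.Y692.QS
open Pool.Agent.Y715.T.Rec (cs)
open Pool.Agent.Y715.T.RecG (Pq)
open Pool.Agent.Y696.CT (pq_star)
open Pool.Agent.R432.C (rec_cs pq_dvd inf_q)
open Pool.Agent.NH4.CF (cs_star conj_zero cs_star')

/-- a new prime and its conjugate -/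
structure New (P : Finset Ei) (ε : Ei → ZMod 3) (y : Ei) : Prop where
  pq : Pq y
  nine : nr y % 9 = 1
  nP : y ∉ P
  nsP : star y ∉ P
  ns : star y ≠ y
  cy : ∀ p ∈ P, cs y p = ε p
  csy : ∀ p ∈ P, cs (star y) p = -ε (star p)
  c0 : cs y (star y) = 0
  c1 : cs (star y) y = 0

theorem nd {x y : Ei} (hx : Pq x) (hy : Pq y) (h : x ≠ y) : ¬ x ∣ y := fun hd => h (pq_dvd hx hy hd)

/-- **new primes with prescribed symbols** -/
theorem exists_new {P : Finset Ei} (hP : ∀ p ∈ P, Pq p) (hst : ∀ p ∈ P, star p ∈ P) {o : Ei}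
    (ho : o ∈ P) (hos : star o = o) {ε : Ei → ZMod 3} (hε : ε o ≠ 0) :
    {y : Ei | New P ε y}.Infinite := by
  refine (inf_q P hP ε).mono ?_
  rintro y ⟨h1, h2, h3, h4⟩
  have hnd : ∀ p ∈ P, ¬ y ∣ p := fun p hp => nd h1 (hP p hp) (fun h => h2 (h ▸ hp))
  have hsP : star y ∉ P := fun h => h2 (by
    have := hst _ h
    rwa [star_star] at this)
  have hcsy : ∀ p ∈ P, cs (star y) p = -ε (star p) := by
    intro p hp
    have h5 := cs_star h1 (hnd _ (hst p hp))
    rw [star_star, h4 _ (hst p hp)] at h5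
    exact h5
  have hns : star y ≠ y := by
    intro h
    have h5 := hcsy o ho
    rw [h, h4 o ho, hos] at h5
    apply hε
    revert h5
    generalize ε o = c
    revert c
    decide
  have hc0 : cs y (star y) = 0 := conj_zero h1 h3 (nd h1 (pq_star h1) hns.symm)
  refine ⟨h1, h3, h2, hsP, hns, h4, hcsy, hc0, ?_⟩
  rw [rec_cs h1 (pq_star h1) hns.symm]
  exact hc0

/-- the state of the construction: the primes in `A` are controlled -/
structure St (o : Ei) (G A Q : Finset Ei) : Prop where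
  p : ∀ x ∈ Q, Pq x
  n : ∀ x ∈ Q, nr x % 9 = 1
  st : ∀ x ∈ Q, star x ∈ Q
  sn : ∀ x ∈ Q, star x ≠ x
  dG : ∀ x ∈ Q, x ∉ G
  qo : ∀ x ∈ Q, cs x o ≠ 0
  qq : ∀ x ∈ Q, ∀ y ∈ Q, x ≠ y → cs x y = 0
  one : ∀ x ∈ Q, ∀ l ∈ G, ∀ m ∈ G, cs x l ≠ 0 → cs x m ≠ 0 → l = m
  ex : ∀ l ∈ A, ∀ s : ZMod 3, s ≠ 0 → ∃ x ∈ Q, cs x o + s * cs x l = 0 ∧
    ∀ y ∈ Q, cs y o + s * cs y l = 0 → y = x

variable {o : Ei} {G A Q : Finset Ei}

/-- adding one pair of primes -/
theorem St.add (hGs : ∀ l ∈ G, star l ∈ G)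
    (hos : star o = o) (h : St o G A Q) {y : Ei} {ε : Ei → ZMod 3}
    (hy : New (insert o (G ∪ Q)) ε y) (hεo : ε o ≠ 0) (hεQ : ∀ x ∈ Q, ε x = 0)
    (hε1 : ∀ l ∈ G, ∀ m ∈ G, ε l ≠ 0 → ε m ≠ 0 → l = m) (hεA : ∀ l ∈ A, l ∈ G → ε l = 0)
    (hAG : ∀ l ∈ A, l ∈ G) (hAs : ∀ l ∈ A, star l ∈ A) :
    St o G A (insert y (insert (star y) Q)) := by
  have hoP : o ∈ insert o (G ∪ Q) := Finset.mem_insert_self _ _
  have hGP : ∀ l ∈ G, l ∈ insert o (G ∪ Q) := fun l hl =>
    Finset.mem_insert_of_mem (Finset.mem_union_left _ hl)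
  have hQP : ∀ l ∈ Q, l ∈ insert o (G ∪ Q) := fun l hl =>
    Finset.mem_insert_of_mem (Finset.mem_union_right _ hl)
  have hyo : cs y o ≠ 0 := by rw [hy.cy o hoP]; exact hεo
  have hsyo : cs (star y) o ≠ 0 := by
    rw [hy.csy o hoP, hos, neg_ne_zero]
    exact hεo
  have hyQ : ∀ x ∈ Q, cs y x = 0 := fun x hx => by rw [hy.cy x (hQP x hx), hεQ x hx]
  have hsyQ : ∀ x ∈ Q, cs (star y) x = 0 := fun x hx => by
    rw [hy.csy x (hQP x hx), hεQ _ (h.st x hx), neg_zero]
  have hQy : ∀ x ∈ Q, cs x y = 0 := fun x hx => by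
    rw [rec_cs hy.pq (h.p x hx) (fun h' => hy.nP (h' ▸ hQP x hx))]
    exact hyQ x hx
  have hQsy : ∀ x ∈ Q, cs x (star y) = 0 := fun x hx => by
    rw [rec_cs (pq_star hy.pq) (h.p x hx) (fun h' => hy.nsP (h' ▸ hQP x hx))]
    exact hsyQ x hx
  have mem : ∀ {x : Ei}, x ∈ insert y (insert (star y) Q) → x = y ∨ x = star y ∨ x ∈ Q := by
    intro x hx
    rcases Finset.mem_insert.1 hx with h1 | h1
    · exact Or.inl h1
    · rcases Finset.mem_insert.1 h1 with h2 | h2
      · exact Or.inr (Or.inl h2)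
      · exact Or.inr (Or.inr h2)
  have m0 : y ∈ insert y (insert (star y) Q) := Finset.mem_insert_self _ _
  have m1 : star y ∈ insert y (insert (star y) Q) :=
    Finset.mem_insert_of_mem (Finset.mem_insert_self _ _)
  have m2 : ∀ x ∈ Q, x ∈ insert y (insert (star y) Q) := fun x hx =>
    Finset.mem_insert_of_mem (Finset.mem_insert_of_mem hx)
  refine ⟨?_, ?_, ?_, ?_, ?_, ?_, fun x hx z hz hxz => ?_, fun x hx l hl m hm hxl hxm => ?_,
    fun l hl s hs => ?_⟩
  · intro x hx
    rcases mem hx with rfl | rfl | h1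
    · exact hy.pq
    · exact pq_star hy.pq
    · exact h.p x h1
  · intro x hx
    rcases mem hx with rfl | rfl | h1
    · exact hy.nine
    · rw [nr_star]; exact hy.nine
    · exact h.n x h1
  · intro x hx
    rcases mem hx with rfl | rfl | h1
    · exact m1
    · rw [star_star]; exact m0
    · exact m2 _ (h.st x h1)
  · intro x hx
    rcases mem hx with rfl | rfl | h1
    · exact hy.ns
    · rw [star_star]; exact hy.ns.symm
    · exact h.sn x h1
  · intro x hx
    rcases mem hx with rfl | rfl | h1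
    · exact fun h' => hy.nP (hGP _ h')
    · exact fun h' => hy.nsP (hGP _ h')
    · exact h.dG x h1
  · intro x hx
    rcases mem hx with rfl | rfl | h1
    · exact hyo
    · exact hsyo
    · exact h.qo x h1
  · rcases mem hx with rfl | rfl | h1 <;> rcases mem hz with rfl | rfl | h2
    · exact absurd rfl hxz
    · exact hy.c0
    · exact hyQ z h2
    · exact hy.c1
    · exact absurd rfl hxz
    · exact hsyQ z h2
    · exact hQy x h1
    · exact hQsy x h1
    · exact h.qq x h1 z h2 hxz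
  · rcases mem hx with rfl | rfl | h1
    · rw [hy.cy l (hGP l hl)] at hxl
      rw [hy.cy m (hGP m hm)] at hxm
      exact hε1 l hl m hm hxl hxm
    · rw [hy.csy l (hGP l hl), neg_ne_zero] at hxl
      rw [hy.csy m (hGP m hm), neg_ne_zero] at hxm
      exact star_injective (hε1 _ (hGs l hl) _ (hGs m hm) hxl hxm)
    · exact h.one x h1 l hl m hm hxl hxm
  · obtain ⟨x, hx, hx1, hx2⟩ := h.ex l hl s hs
    refine ⟨x, m2 x hx, hx1, fun z hz hz1 => ?_⟩
    have hlG := hAG l hl
    rcases mem hz with rfl | rfl | h1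
    · rw [hy.cy l (hGP l hlG), hεA l hl hlG, mul_zero, add_zero] at hz1
      exact absurd hz1 hyo
    · rw [hy.csy l (hGP l hlG), hεA _ (hAs l hl) (hGs l hlG), neg_zero, mul_zero, add_zero] at hz1
      exact absurd hz1 hsyo
    · exact hx2 z h1 hz1

/-- the symbols of a new prime -/
noncomputable def ep (o a : Ei) (c : ZMod 3) : Ei → ZMod 3 := fun x =>
  if x = o then 1 else if x = a then c else 0

/-- **one step** -/
theorem St.step (ho : Pq o) (hos : star o = o) (hG : ∀ l ∈ G, Pq l) (hGs : ∀ l ∈ G, star l ∈ G)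
    (hGn : ∀ l ∈ G, star l ≠ l) (hAG : ∀ l ∈ A, l ∈ G) (hAs : ∀ l ∈ A, star l ∈ A)
    (h : St o G A Q) (hoff : ∀ x ∈ Q, ∀ l ∈ G, l ∉ A → cs x l = 0) {a : Ei} (ha : a ∈ G)
    (haA : a ∉ A) :
    ∃ Q' : Finset Ei, St o G (insert a (insert (star a) A)) Q' ∧
      ∀ x ∈ Q', ∀ l ∈ G, l ∉ insert a (insert (star a) A) → cs x l = 0 := by
  have hoG : o ∉ G := fun h' => hGn o h' hos
  have hao : a ≠ o := fun h' => hoG (h' ▸ ha)
  have hsao : star a ≠ o := fun h' => hao (by rw [← star_star a, h', hos])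
  have hsa : star a ≠ a := hGn a ha
  have hsaA : star a ∉ A := fun h' => haA (by
    have := hAs _ h'
    rwa [star_star] at this)
  have epo : ∀ c, ep o a c o = 1 := fun c => if_pos rfl
  have epa : ∀ c, ep o a c a = c := fun c => by
    unfold ep
    rw [if_neg hao, if_pos rfl]
  have epz : ∀ c x, x ≠ o → x ≠ a → ep o a c x = 0 := fun c x h1 h2 => by
    unfold ep
    rw [if_neg h1, if_neg h2]
  have ep1 : ∀ c, ∀ l ∈ G, ∀ m ∈ G, ep o a c l ≠ 0 → ep o a c m ≠ 0 → l = m := by
    intro c l hl m hm h1 h2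
    have h3 : l = a := by
      by_contra h3
      exact h1 (epz c l (fun h' => hoG (h' ▸ hl)) h3)
    have h4 : m = a := by
      by_contra h4
      exact h2 (epz c m (fun h' => hoG (h' ▸ hm)) h4)
    rw [h3, h4]
  have epA : ∀ c, ∀ l ∈ A, l ∈ G → ep o a c l = 0 := fun c l hl hlG =>
    epz c l (fun h' => hoG (h' ▸ hlG)) (fun h' => haA (h' ▸ hl))
  have hP : ∀ R : Finset Ei, (∀ x ∈ R, Pq x) → ∀ p ∈ insert o (G ∪ R), Pq p := by
    intro R hR p hp
    rcases Finset.mem_insert.1 hp with rfl | h1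
    · exact ho
    · rcases Finset.mem_union.1 h1 with h2 | h2
      · exact hG p h2
      · exact hR p h2
  have hPs : ∀ R : Finset Ei, (∀ x ∈ R, star x ∈ R) → ∀ p ∈ insert o (G ∪ R),
      star p ∈ insert o (G ∪ R) := by
    intro R hR p hp
    rcases Finset.mem_insert.1 hp with rfl | h1
    · rw [hos]; exact Finset.mem_insert_self _ _
    · rcases Finset.mem_union.1 h1 with h2 | h2
      · exact Finset.mem_insert_of_mem (Finset.mem_union_left _ (hGs p h2))
      · exact Finset.mem_insert_of_mem (Finset.mem_union_right _ (hR p h2))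
  have hQ0 : ∀ (R : Finset Ei) (c : ZMod 3), (∀ x ∈ R, x ∉ G) → (∀ x ∈ R, star x ≠ x) →
      ∀ x ∈ R, ep o a c x = 0 := by
    intro R c h1 h2 x hx
    exact epz c x (fun h' => h2 x hx (by rw [h', hos])) (fun h' => h1 x hx (h' ▸ ha))
  obtain ⟨y, hy⟩ := (exists_new (hP Q h.p) (hPs Q h.st) (Finset.mem_insert_self _ _) hos
    (ε := ep o a 1) (by rw [epo]; exact one_ne_zero)).nonempty
  have h1 := h.add hGs hos hy (by rw [epo]; exact one_ne_zero) (hQ0 Q 1 h.dG h.sn) (ep1 1) (epA 1)
    hAG hAs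
  set Q1 := insert y (insert (star y) Q) with hQ1
  obtain ⟨z, hz⟩ := (exists_new (hP Q1 h1.p) (hPs Q1 h1.st) (Finset.mem_insert_self _ _) hos
    (ε := ep o a 2) (by rw [epo]; exact one_ne_zero)).nonempty
  have h2 := h1.add hGs hos hz (by rw [epo]; exact one_ne_zero) (hQ0 Q1 2 h1.dG h1.sn) (ep1 2)
    (epA 2) hAG hAs
  -- membership
  have mem : ∀ {x : Ei}, x ∈ insert z (insert (star z) Q1) →
      x = z ∨ x = star z ∨ x = y ∨ x = star y ∨ x ∈ Q := by
    intro x hx
    rcases Finset.mem_insert.1 hx with e | hx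
    · exact Or.inl e
    rcases Finset.mem_insert.1 hx with e | hx
    · exact Or.inr (Or.inl e)
    rcases Finset.mem_insert.1 hx with e | hx
    · exact Or.inr (Or.inr (Or.inl e))
    rcases Finset.mem_insert.1 hx with e | hx
    · exact Or.inr (Or.inr (Or.inr (Or.inl e)))
    · exact Or.inr (Or.inr (Or.inr (Or.inr hx)))
  have mz : z ∈ insert z (insert (star z) Q1) := Finset.mem_insert_self _ _
  have msz : star z ∈ insert z (insert (star z) Q1) :=
    Finset.mem_insert_of_mem (Finset.mem_insert_self _ _)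
  have my : y ∈ insert z (insert (star z) Q1) :=
    Finset.mem_insert_of_mem (Finset.mem_insert_of_mem (Finset.mem_insert_self _ _))
  have msy : star y ∈ insert z (insert (star z) Q1) :=
    Finset.mem_insert_of_mem (Finset.mem_insert_of_mem
      (Finset.mem_insert_of_mem (Finset.mem_insert_self _ _)))
  have oP : ∀ R : Finset Ei, o ∈ insert o (G ∪ R) := fun R => Finset.mem_insert_self _ _
  have GP : ∀ (R : Finset Ei), ∀ l ∈ G, l ∈ insert o (G ∪ R) := fun R l hl =>
    Finset.mem_insert_of_mem (Finset.mem_union_left _ hl)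
  -- the symbols
  have yo : cs y o = 1 := by rw [hy.cy o (oP Q), epo]
  have syo : cs (star y) o = -1 := by rw [hy.csy o (oP Q), hos, epo]
  have zo : cs z o = 1 := by rw [hz.cy o (oP Q1), epo]
  have szo : cs (star z) o = -1 := by rw [hz.csy o (oP Q1), hos, epo]
  have ya : cs y a = 1 := by rw [hy.cy a (GP Q a ha), epa]
  have za : cs z a = 2 := by rw [hz.cy a (GP Q1 a ha), epa]
  have sya : cs (star y) a = 0 := by rw [hy.csy a (GP Q a ha), epz 1 _ hsao hsa, neg_zero]
  have sza : cs (star z) a = 0 := by rw [hz.csy a (GP Q1 a ha), epz 2 _ hsao hsa, neg_zero]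
  have ysa : cs y (star a) = 0 := by rw [hy.cy _ (GP Q _ (hGs a ha)), epz 1 _ hsao hsa]
  have zsa : cs z (star a) = 0 := by rw [hz.cy _ (GP Q1 _ (hGs a ha)), epz 2 _ hsao hsa]
  have sysa : cs (star y) (star a) = -1 := by
    rw [hy.csy _ (GP Q _ (hGs a ha)), star_star, epa]
  have szsa : cs (star z) (star a) = -2 := by
    rw [hz.csy _ (GP Q1 _ (hGs a ha)), star_star, epa]
  have hs2 : ∀ s : ZMod 3, s ≠ 0 → s = 1 ∨ s = 2 := by decide
  refine ⟨insert z (insert (star z) Q1), ⟨h2.p, h2.n, h2.st, h2.sn, h2.dG, h2.qo, h2.qq, h2.one,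
    fun l hl s hs => ?_⟩, fun x hx l hl hlA => ?_⟩
  · rcases Finset.mem_insert.1 hl with rfl | hl
    · -- `l = a`
      rcases hs2 s hs with rfl | rfl
      · refine ⟨z, mz, by rw [zo, za]; decide, fun x hx hx1 => ?_⟩
        rcases mem hx with rfl | rfl | rfl | rfl | h3
        · rfl
        · rw [szo, sza] at hx1; exact absurd hx1 (by decide)
        · rw [yo, ya] at hx1; exact absurd hx1 (by decide)
        · rw [syo, sya] at hx1; exact absurd hx1 (by decide)
        · rw [hoff x h3 _ ha haA, mul_zero, add_zero] at hx1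
          exact absurd hx1 (h.qo x h3)
      · refine ⟨y, my, by rw [yo, ya]; decide, fun x hx hx1 => ?_⟩
        rcases mem hx with rfl | rfl | rfl | rfl | h3
        · rw [zo, za] at hx1; exact absurd hx1 (by decide)
        · rw [szo, sza] at hx1; exact absurd hx1 (by decide)
        · rfl
        · rw [syo, sya] at hx1; exact absurd hx1 (by decide)
        · rw [hoff x h3 _ ha haA, mul_zero, add_zero] at hx1
          exact absurd hx1 (h.qo x h3)
    · rcases Finset.mem_insert.1 hl with rfl | hl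
      · -- `l = star a`
        rcases hs2 s hs with rfl | rfl
        · refine ⟨star z, msz, by rw [szo, szsa]; decide, fun x hx hx1 => ?_⟩
          rcases mem hx with rfl | rfl | rfl | rfl | h3
          · rw [zo, zsa] at hx1; exact absurd hx1 (by decide)
          · rfl
          · rw [yo, ysa] at hx1; exact absurd hx1 (by decide)
          · rw [syo, sysa] at hx1; exact absurd hx1 (by decide)
          · rw [hoff x h3 _ (hGs a ha) hsaA, mul_zero, add_zero] at hx1
            exact absurd hx1 (h.qo x h3)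
        · refine ⟨star y, msy, by rw [syo, sysa]; decide, fun x hx hx1 => ?_⟩
          rcases mem hx with rfl | rfl | rfl | rfl | h3
          · rw [zo, zsa] at hx1; exact absurd hx1 (by decide)
          · rw [szo, szsa] at hx1; exact absurd hx1 (by decide)
          · rw [yo, ysa] at hx1; exact absurd hx1 (by decide)
          · rfl
          · rw [hoff x h3 _ (hGs a ha) hsaA, mul_zero, add_zero] at hx1
            exact absurd hx1 (h.qo x h3)
      · exact h2.ex l hl s hs
  · have hla : l ≠ a := fun h' => hlA (by rw [h']; exact Finset.mem_insert_self _ _)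
    have hlsa : l ≠ star a := fun h' => hlA (by
      rw [h']; exact Finset.mem_insert_of_mem (Finset.mem_insert_self _ _))
    have hlA' : l ∉ A := fun h' => hlA (Finset.mem_insert_of_mem (Finset.mem_insert_of_mem h'))
    have hlo : l ≠ o := fun h' => hoG (h' ▸ hl)
    have hslo : star l ≠ o := fun h' => hlo (by rw [← star_star l, h', hos])
    have hsla : star l ≠ a := fun h' => hlsa (by rw [← star_star l, h'])
    rcases mem hx with rfl | rfl | rfl | rfl | h3
    · rw [hz.cy l (GP Q1 l hl), epz 2 l hlo hla]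
    · rw [hz.csy l (GP Q1 l hl), epz 2 _ hslo hsla, neg_zero]
    · rw [hy.cy l (GP Q l hl), epz 1 l hlo hla]
    · rw [hy.csy l (GP Q l hl), epz 1 _ hslo hsla, neg_zero]
    · exact hoff x h3 l hl hlA'

/-- **all the primes in `G` can be controlled** -/
theorem exists_St (ho : Pq o) (hos : star o = o) (hG : ∀ l ∈ G, Pq l) (hGs : ∀ l ∈ G, star l ∈ G)
    (hGn : ∀ l ∈ G, star l ≠ l) : ∃ Q : Finset Ei, St o G G Q := by
  have key : ∀ n : ℕ, ∀ A Q : Finset Ei, (∀ l ∈ A, l ∈ G) → (∀ l ∈ A, star l ∈ A) → St o G A Q →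
      (∀ x ∈ Q, ∀ l ∈ G, l ∉ A → cs x l = 0) → (G \ A).card = n → ∃ Q' : Finset Ei, St o G G Q' := by
    intro n
    induction n using Nat.strong_induction_on with
    | _ n ih =>
      intro A Q hAG hAs hSt hoff hn
      by_cases hex : ∃ a ∈ G, a ∉ A
      · obtain ⟨a, ha, haA⟩ := hex
        obtain ⟨Q', h1, h2⟩ := hSt.step ho hos hG hGs hGn hAG hAs hoff ha haA
        refine ih _ ?_ _ Q' ?_ ?_ h1 h2 rfl
        · rw [← hn]
          apply Finset.card_lt_card
          rw [Finset.ssubset_iff_of_subset]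
          · refine ⟨a, Finset.mem_sdiff.2 ⟨ha, haA⟩, fun h3 => ?_⟩
            exact (Finset.mem_sdiff.1 h3).2 (Finset.mem_insert_self _ _)
          · exact Finset.sdiff_subset_sdiff (Finset.Subset.refl _)
              ((Finset.subset_insert _ _).trans (Finset.subset_insert _ _))
        · intro l hl
          rcases Finset.mem_insert.1 hl with rfl | hl
          · exact ha
          · rcases Finset.mem_insert.1 hl with rfl | hl
            · exact hGs a ha
            · exact hAG l hl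
        · intro l hl
          rcases Finset.mem_insert.1 hl with rfl | hl
          · exact Finset.mem_insert_of_mem (Finset.mem_insert_self _ _)
          · rcases Finset.mem_insert.1 hl with rfl | hl
            · rw [star_star]; exact Finset.mem_insert_self _ _
            · exact Finset.mem_insert_of_mem (Finset.mem_insert_of_mem (hAs l hl))
      · push Not at hex
        have hAG' : A = G := Finset.Subset.antisymm hAG hex
        exact ⟨Q, hAG' ▸ hSt⟩
  refine key _ ∅ ∅ (by simp) (by simp) ⟨?_, ?_, ?_, ?_, ?_, ?_, ?_, ?_, ?_⟩ (by simp) rfl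
  all_goals simp

end Pool.Agent.NH4.CG
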