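import Pool.Agent.NH4.CG.Ex
import Pool.Agent.Y696.CT.Chr

/-! Infinitely many good numbers for an infinite tower. -/

set_option autoImplicit false
set_option linter.unusedSectionVars false

open scoped Classical

namespace Pool.Agent.NH4.CG

open Pool.Agent.Y692.QS
open Pool.Agent.Y715.T.Rec (cs)
open Pool.Agent.Y715.T.RecG (Pq)
open Pool.Agent.Y696.CT (pq_star)
open Pool.Agent.Y703.CT (Dt pD Ker)
open Pool.Agent.R432.C (rec_cs pq_dvd inf_q nr_prod)
open Pool.Agent.NH4.CF (cs_star conj_zero cs_star')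

/-- the symbols of a leaf at `o` -/
noncomputable def ez (o : Ei) : Ei → ZMod 3 := fun x => if x = o then 1 else 0

theorem New.mono {P P' : Finset Ei} {ε : Ei → ZMod 3} {y : Ei} (h : New P ε y) (hs : P' ⊆ P) :
    New P' ε y :=
  ⟨h.pq, h.nine, fun h' => h.nP (hs h'), fun h' => h.nsP (hs h'), h.ns, fun p hp => h.cy p (hs hp),
    fun p hp => h.csy p (hs hp), h.c0, h.c1⟩

/-- the relation of two leaves -/
def Rel (x y : Ei) : Prop := x ≠ y ∧ star x ≠ y ∧ cs x y = 0 ∧ cs y x = 0 ∧ cs x (star y) = 0 ∧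
  cs y (star x) = 0

theorem Rel.symm {x y : Ei} (h : Rel x y) : Rel y x :=
  ⟨h.1.symm, fun h' => h.2.1 (by rw [← h', star_star]), h.2.2.2.1, h.2.2.1, h.2.2.2.2.2, h.2.2.2.2.1⟩

theorem exists_seq {P : Finset Ei} (hP : ∀ p ∈ P, Pq p) (hst : ∀ p ∈ P, star p ∈ P) {o : Ei}
    (ho : o ∈ P) (hos : star o = o) :
    ∃ f : ℕ → Ei, (∀ n, New P (ez o) (f n)) ∧ ∀ m n, m ≠ n → Rel (f m) (f n) := by
  have hsym : Std.Symm Rel := ⟨fun x y h => h.symm⟩
  obtain ⟨f, f1, f2⟩ := exists_seq_of_forall_finset_exists' (fun y : Ei => New P (ez o) y) Rel (by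
    intro s hs
    have hP' : ∀ p ∈ P ∪ (s ∪ s.image star), Pq p := by
      intro p hp
      rcases Finset.mem_union.1 hp with h | h
      · exact hP p h
      · rcases Finset.mem_union.1 h with h | h
        · exact (hs p h).pq
        · obtain ⟨z, hz, rfl⟩ := Finset.mem_image.1 h
          exact pq_star (hs z hz).pq
    have hst' : ∀ p ∈ P ∪ (s ∪ s.image star), star p ∈ P ∪ (s ∪ s.image star) := by
      intro p hp
      rcases Finset.mem_union.1 hp with h | h
      · exact Finset.mem_union_left _ (hst p h)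
      · rcases Finset.mem_union.1 h with h | h
        · exact Finset.mem_union_right _ (Finset.mem_union_right _ (Finset.mem_image_of_mem _ h))
        · obtain ⟨z, hz, rfl⟩ := Finset.mem_image.1 h
          rw [star_star]
          exact Finset.mem_union_right _ (Finset.mem_union_left _ hz)
    obtain ⟨y, hy⟩ := (exists_new hP' hst' (Finset.mem_union_left _ ho) hos (ε := ez o)
      (by unfold ez; rw [if_pos rfl]; exact one_ne_zero)).nonempty
    refine ⟨y, hy.mono Finset.subset_union_left, fun x hx => ?_⟩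
    have hx' := hs x hx
    have m1 : x ∈ P ∪ (s ∪ s.image star) :=
      Finset.mem_union_right _ (Finset.mem_union_left _ hx)
    have m2 : star x ∈ P ∪ (s ∪ s.image star) :=
      Finset.mem_union_right _ (Finset.mem_union_right _ (Finset.mem_image_of_mem _ hx))
    have n1 : x ≠ y := fun h => hy.nP (h ▸ m1)
    have n2 : star x ≠ y := fun h => hy.nP (h ▸ m2)
    have o1 : x ≠ o := fun h => hx'.nP (h ▸ ho)
    have o2 : star x ≠ o := fun h => o1 (by rw [← star_star x, h, hos])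
    have c1 : cs y x = 0 := by rw [hy.cy x m1]; unfold ez; rw [if_neg o1]
    have c2 : cs y (star x) = 0 := by rw [hy.cy _ m2]; unfold ez; rw [if_neg o2]
    have c3 : cs (star y) x = 0 := by
      rw [hy.csy x m1]; unfold ez; rw [if_neg o2, neg_zero]
    refine ⟨n1, n2, ?_, c1, ?_, c2⟩
    · rw [rec_cs hy.pq hx'.pq n1.symm]; exact c1
    · rw [rec_cs (pq_star hy.pq) hx'.pq (fun h => hy.nsP (h ▸ m1))]; exact c3)
  exact ⟨f, f1, fun m n hmn => f2 hmn⟩

/-- the leaves -/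
def Lv (f : ℕ → Ei) : Set Ei := {x | ∃ k, x = f (2 * k) ∨ x = star (f (2 * k))}

/-- the primes of the number -/
noncomputable def Qn (Q : Finset Ei) (f : ℕ → Ei) (n : ℕ) : Finset Ei :=
  insert (f (2 * n + 1)) (insert (star (f (2 * n + 1))) Q)

theorem exists_Gad {o : Ei} (ho : Pq o) (hos : star o = o) {G : Finset Ei} (hG : ∀ l ∈ G, Pq l)
    (hG9 : ∀ l ∈ G, nr l % 9 = 1) (hGs : ∀ l ∈ G, star l ∈ G) (hGn : ∀ l ∈ G, star l ≠ l) :
    ∃ (Q : Finset Ei) (f : ℕ → Ei), (∀ n, Gad o (Qn Q f n) (G : Set Ei) (Lv f)) ∧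
      (∀ n, ∀ x ∈ Qn Q f n, nr x % 9 = 1 ∧ star x ∈ Qn Q f n) ∧
      (∀ n, Pq (f n) ∧ nr (f n) % 9 = 1 ∧ star (f n) ≠ f n) ∧
      (∀ m n, m ≠ n → f m ≠ f n ∧ star (f m) ≠ f n) ∧
      (∀ n, f n ∉ Q ∧ f n ≠ o) := by
  obtain ⟨Q, hQ⟩ := exists_St ho hos hG hGs hGn
  have hP : ∀ p ∈ insert o (G ∪ Q), Pq p := by
    intro p hp
    rcases Finset.mem_insert.1 hp with rfl | h1
    · exact ho
    · rcases Finset.mem_union.1 h1 with h2 | h2
      · exact hG p h2
      · exact hQ.p p h2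
  have hPs : ∀ p ∈ insert o (G ∪ Q), star p ∈ insert o (G ∪ Q) := by
    intro p hp
    rcases Finset.mem_insert.1 hp with rfl | h1
    · rw [hos]; exact Finset.mem_insert_self _ _
    · rcases Finset.mem_union.1 h1 with h2 | h2
      · exact Finset.mem_insert_of_mem (Finset.mem_union_left _ (hGs p h2))
      · exact Finset.mem_insert_of_mem (Finset.mem_union_right _ (hQ.st p h2))
  have hoP : o ∈ insert o (G ∪ Q) := Finset.mem_insert_self _ _
  have hGP : ∀ l ∈ G, l ∈ insert o (G ∪ Q) := fun l hl =>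
    Finset.mem_insert_of_mem (Finset.mem_union_left _ hl)
  have hQP : ∀ l ∈ Q, l ∈ insert o (G ∪ Q) := fun l hl =>
    Finset.mem_insert_of_mem (Finset.mem_union_right _ hl)
  obtain ⟨f, f1, f2⟩ := exists_seq hP hPs hoP hos
  have hoG : o ∉ G := fun h' => hGn o h' hos
  have hoQ : o ∉ Q := fun h' => hQ.sn o h' hos
  have ezo : ez o o = 1 := if_pos rfl
  have ez0 : ∀ x, x ≠ o → ez o x = 0 := fun x hx => if_neg hx
  have hSt : ∀ n, St o G G (Qn Q f n) := fun n =>
    hQ.add hGs hos (f1 (2 * n + 1)) (by rw [ezo]; exact one_ne_zero)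
      (fun x hx => ez0 x fun h => hoQ (h ▸ hx))
      (fun l hl m hm h1 => absurd (ez0 l fun h => hoG (h ▸ hl)) h1)
      (fun l hl _ => ez0 l fun h => hoG (h ▸ hl)) (fun l hl => hl) (fun l hl => hGs l hl)
  have hso : ∀ x : Ei, x ≠ o → star x ≠ o := fun x hx h => hx (by rw [← star_star x, h, hos])
  -- the symbols of the leaves
  have lc : ∀ x ∈ Lv f, cs x o ≠ 0 ∧ (∀ p ∈ insert o (G ∪ Q), p ≠ o → cs x p = 0) ∧
      x ∉ insert o (G ∪ Q) ∧ Pq x ∧ nr x % 9 = 1 := by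
    rintro x ⟨k, rfl | rfl⟩
    · have h := f1 (2 * k)
      refine ⟨by rw [h.cy o hoP, ezo]; exact one_ne_zero, fun p hp hpo => ?_, h.nP, h.pq, h.nine⟩
      rw [h.cy p hp, ez0 p hpo]
    · have h := f1 (2 * k)
      refine ⟨?_, fun p hp hpo => ?_, h.nsP, pq_star h.pq, by rw [nr_star]; exact h.nine⟩
      · rw [h.csy o hoP, hos, ezo, neg_ne_zero]
        exact one_ne_zero
      · rw [h.csy p hp, ez0 _ (hso p hpo), neg_zero]
  -- two different pairs
  have two : ∀ m n, m ≠ n → ∀ x y : Ei, (x = f m ∨ x = star (f m)) → (y = f n ∨ y = star (f n)) →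
      x ≠ y ∧ cs x y = 0 := by
    intro m n hmn x y hx hy
    obtain ⟨r1, r2, r3, r4, r5, r6⟩ := f2 m n hmn
    have pm := (f1 m).pq
    have pn := (f1 n).pq
    rcases hx with rfl | rfl <;> rcases hy with rfl | rfl
    · exact ⟨r1, r3⟩
    · exact ⟨fun h => r2 (by rw [h, star_star]), r5⟩
    · refine ⟨r2, ?_⟩
      rw [rec_cs pn (pq_star pm) r2.symm]
      exact r6
    · have hne : star (f m) ≠ star (f n) := fun h => r1 (star_injective h)
      refine ⟨hne, ?_⟩
      rw [cs_star pm (nd pm pn r1), r3, neg_zero]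
  have memQ : ∀ n x, x ∈ Qn Q f n → (x = f (2 * n + 1) ∨ x = star (f (2 * n + 1))) ∨ x ∈ Q := by
    intro n x hx
    rcases Finset.mem_insert.1 hx with h1 | h1
    · exact Or.inl (Or.inl h1)
    · rcases Finset.mem_insert.1 h1 with h2 | h2
      · exact Or.inl (Or.inr h2)
      · exact Or.inr h2
  refine ⟨Q, f, fun n => ?_, fun n x hx => ⟨(hSt n).n x hx, (hSt n).st x hx⟩,
    fun n => ⟨(f1 n).pq, (f1 n).nine, (f1 n).ns⟩,
    fun m n hmn => ⟨(f2 m n hmn).1, (f2 m n hmn).2.1⟩,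
    fun n => ⟨fun h => (f1 n).nP (hQP _ h), fun h => (f1 n).nP (h ▸ hoP)⟩⟩
  have S := hSt n
  refine ⟨ho, S.p, fun x hx => hG x hx, fun x hx => (lc x hx).2.2.2.1,
    fun h' => S.sn o h' hos, fun h' => hoG h', fun h' => (lc o h').2.2.1 hoP,
    fun x hx h' => S.dG x hx h', fun x hx hxL => ?_, fun x hx h' => (lc x h').2.2.1 (hGP x hx),
    fun x hx => hG9 x hx, fun x hx => (lc x hx).2.2.2.2, S.qo, S.qq,
    fun x hx l hl m hm => S.one x hx l hl m hm, fun l hl => S.ex l hl, fun l hl => (lc l hl).1,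
    fun l hl x hx => ?_, fun l hl x hx => ?_, fun l hl m hm hlm => ?_⟩
  · rcases memQ n x hx with h1 | h1
    · obtain ⟨k, hk⟩ := hxL
      exact (two (2 * n + 1) (2 * k) (by omega) x x h1 hk).1 rfl
    · exact (lc x hxL).2.2.1 (hQP x h1)
  · rcases memQ n x hx with h1 | h1
    · obtain ⟨k, hk⟩ := hl
      exact (two (2 * k) (2 * n + 1) (by omega) l x hk h1).2
    · exact (lc l hl).2.1 x (hQP x h1) (fun h => hoQ (h ▸ h1))
  · exact (lc l hl).2.1 x (hGP x hx) (fun h => hoG (h ▸ hx))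
  · obtain ⟨k, hk⟩ := hl
    obtain ⟨k', hk'⟩ := hm
    by_cases hkk : k = k'
    · subst hkk
      have h := f1 (2 * k)
      rcases hk with rfl | rfl <;> rcases hk' with rfl | rfl
      · exact absurd rfl hlm
      · exact h.c0
      · exact h.c1
      · exact absurd rfl hlm
    · exact (two (2 * k) (2 * k') (by omega) l m hk hk').2

/-! ### the numbers -/

theorem pD_eq (o : Ei) (Q : Finset Ei) : pD (pi0 o Q) (e0 o Q) = ∏ x ∈ insert o Q, x := by
  unfold pD
  rw [← Finset.prod_coe_sort (insert o Q)]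
  refine Finset.prod_congr rfl fun x _ => ?_
  have : (e0 o Q x).val = 1 := rfl
  rw [this, pow_one]

theorem exists_nat {o : Ei} (hos : star o = o) {Q : Finset Ei} (hQ : ∀ x ∈ Q, star x ∈ Q) :
    ∃ D : ℕ, (D : Ei) = pD (pi0 o Q) (e0 o Q) ∨ (D : Ei) = -pD (pi0 o Q) (e0 o Q) := by
  rw [pD_eq]
  set p : Ei := ∏ x ∈ insert o Q, x with hp
  have hW : ∀ x ∈ insert o Q, star x ∈ insert o Q := by
    intro x hx
    rcases Finset.mem_insert.1 hx with rfl | h1
    · rw [hos]; exact Finset.mem_insert_self _ _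
    · exact Finset.mem_insert_of_mem (hQ x h1)
  have hs : star p = p := by
    rw [hp, star_prod]
    exact Finset.prod_nbij' star star hW hW (fun x _ => star_star x) (fun x _ => star_star x)
      (fun x _ => rfl)
  have him : p.im = 0 := by
    have h1 := congrArg (fun z : Ei => z.im) hs
    simp only [star_im] at h1
    omega
  obtain ⟨r, hre⟩ : ∃ r : ℤ, p = (r : Ei) := by
    refine ⟨p.re, ?_⟩
    conv_lhs => rw [eta p, him]
    simp
  refine ⟨r.natAbs, ?_⟩
  rcases Int.natAbs_eq r with h | h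
  · left
    have h1 : (((r.natAbs : ℕ) : ℤ) : Ei) = ((r : ℤ) : Ei) := by rw [← h]
    rw [hre, ← h1, Int.cast_natCast]
  · right
    have h1 : (((r.natAbs : ℕ) : ℤ) : Ei) = ((-r : ℤ) : Ei) := by
      have : ((r.natAbs : ℕ) : ℤ) = -r := by omega
      rw [this]
    rw [hre, ← Int.cast_natCast, h1, Int.cast_neg]

section num

variable {o : Ei} {Q : Finset Ei} {G L : Set Ei} {D : ℕ}

theorem dvd_iff_pD (hD : (D : Ei) = pD (pi0 o Q) (e0 o Q) ∨ (D : Ei) = -pD (pi0 o Q) (e0 o Q))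
    (x : Ei) : x ∣ (D : Ei) ↔ x ∣ ∏ x ∈ insert o Q, x := by
  rw [← pD_eq]
  rcases hD with h | h
  · rw [h]
  · rw [h, dvd_neg]

theorem Gad.D_ne (h : Gad o Q G L)
    (hD : (D : Ei) = pD (pi0 o Q) (e0 o Q) ∨ (D : Ei) = -pD (pi0 o Q) (e0 o Q)) : D ≠ 0 := by
  rintro rfl
  have h1 : (∏ x ∈ insert o Q, x) ≠ 0 := Finset.prod_ne_zero_iff.2 fun x hx => (h.pW hx).prime.ne_zero
  rw [pD_eq, Nat.cast_zero] at hD
  rcases hD with h2 | h2
  · exact h1 h2.symm
  · exact h1 (neg_eq_zero.1 h2.symm)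

/-- the primes of `D` -/
theorem Gad.dvd (h : Gad o Q G L)
    (hD : (D : Ei) = pD (pi0 o Q) (e0 o Q) ∨ (D : Ei) = -pD (pi0 o Q) (e0 o Q)) {x : Ei}
    (hx : Pq x) : x ∣ (D : Ei) ↔ x ∈ insert o Q := by
  rw [dvd_iff_pD hD]
  constructor
  · intro h1
    obtain ⟨y, hy, h2⟩ := (hx.prime.dvd_finsetProd_iff _).1 h1
    rw [pq_dvd hx (h.pW hy) h2]
    exact hy
  · intro h1
    exact Finset.dvd_prod_of_mem (fun x => x) h1

theorem Gad.sqf (h : Gad o Q G L)
    (hD : (D : Ei) = pD (pi0 o Q) (e0 o Q) ∨ (D : Ei) = -pD (pi0 o Q) (e0 o Q)) :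
    Squarefree D := by
  have h1 : Squarefree (∏ x ∈ insert o Q, x) := by
    refine Finset.squarefree_prod_of_pairwise_isCoprime (fun x hx y hy hxy => ?_)
      (fun x hx => (h.pW hx).prime.squarefree)
    have hx' := h.pW (Finset.mem_coe.1 hx)
    have hy' := h.pW (Finset.mem_coe.1 hy)
    exact (hx'.prime.irreducible.isRelPrime_iff_not_dvd).2 (nd hx' hy' hxy)
  intro a ha
  have h2 : (a : Ei) * (a : Ei) ∣ (D : Ei) := by
    obtain ⟨c, hc⟩ := ha
    exact ⟨c, by rw [hc]; push_cast; ring⟩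
  rw [dvd_iff_pD hD] at h2
  have h3 := h1 _ h2
  have h4 := isUnit_iff.1 h3
  rw [nr_nat] at h4
  have h5 : (a : ℤ) ^ 2 = 1 := h4
  have h6 : a ^ 2 = 1 := by exact_mod_cast h5
  rw [Nat.isUnit_iff]
  nlinarith [h6]

theorem Gad.h9 (h : ∀ x ∈ Q, nr x % 9 = 1) (h4 : nr o = 4) (hoQ : o ∉ Q) :
    ¬ (9 : ℤ) ∣ nr (pD (pi0 o Q) (e0 o Q)) - 1 := by
  rw [pD_eq, Finset.prod_insert hoQ, nr_mul, nr_prod, h4]
  have h1 : (∏ x ∈ Q, nr x) ≡ 1 [ZMOD 9] := by
    have h5 : ∀ s : Finset Ei, s ⊆ Q → (∏ x ∈ s, nr x) ≡ 1 [ZMOD 9] := by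
      intro s
      induction s using Finset.induction_on with
      | empty => intro _; rw [Finset.prod_empty]
      | insert a s ha ih =>
        intro hs
        rw [Finset.prod_insert ha]
        have h7 : nr a ≡ 1 [ZMOD 9] := h a (hs (Finset.mem_insert_self _ _))
        have h6 := h7.mul (ih ((Finset.subset_insert _ _).trans hs))
        rwa [mul_one] at h6
    exact h5 Q (Finset.Subset.refl _)
  have h2 := (Int.ModEq.refl (n := 9) 4).mul h1
  unfold Int.ModEq at h2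
  omega

end num

end Pool.Agent.NH4.CG
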