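import Pool.Agent.NH4.CF.Hf
import Pool.Agent.R432.JG.G1

/-! Half Euler products over `F ⊇ ℚ(ω)`, if all the twists are good. -/

set_option autoImplicit false
set_option linter.unusedSectionVars false

open NumberField IsDedekindDomain Filter Complex
open scoped Topology Classical

namespace Pool.Agent.NH4.CG

open Pool.Agent.Y692.QS hiding chi
open Pool.Agent.Y715.T.Rec (cs nn)
open Pool.Agent.Y715.T.RecG (Pq cs_spec)
open Pool.Agent.Y703.CT (IsHL chD Dt pD Ker)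
open Pool.Agent.Y696.CT (gg chD_prime cs_mul')
open Pool.Agent.R432.C hiding leaf_dt leaf_nine leaf_ker
open Pool.Agent.R432.V hiding gg_tw
open Pool.Agent.R432.JG (LeafP)
open Pool.Agent.NH4.CF
open Pool.Agent.H921R2.TatePole (nm nm_summable two_le_nm)

theorem gg_tw' {J : Type} [Fintype J] {π : J → Ei} {e : J → ZMod 3} (hD : Dt π e)
    {S : Finset Ei} (hL : LeafP π S) (t : {x : Ei // x ∈ S} → ZMod 3) {α : Ei}
    (hα : Pq α) (h1 : ¬ α ∣ pD π e) (h2 : ∀ l ∈ S, ¬ α ∣ l) (s : ℂ) :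
    gg (πL π t) (fun i => -eL e t i) s α =
      (toC (w ^ (-cs α (pD π e)).val * α) * ((nr α : ℤ) : ℂ) ^ (-s)) *
        toC w ^ (∑ i : {x : Ei // x ∈ S}, (-cs α i.1) * t i).val := by
  have hpr : ¬ α ∣ ∏ i : {x : Ei // x ∈ S}, i.1 ^ (t i).val := by
    intro h
    obtain ⟨i, -, hi⟩ := (hα.prime.dvd_finsetProd_iff _).1 h
    exact h2 i.1 i.2 (hα.prime.dvd_of_dvd_pow hi)
  have hnd : ¬ α ∣ pD (πL π t) (eL e t) := by
    rw [leaf_pD]
    intro h
    rcases hα.prime.dvd_or_dvd h with h | h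
    · exact h1 h
    · exact hpr h
  have h3 := chD_prime Pool.Agent.Y350.CT.rec (Pool.Agent.R432.JG.leaf_dt hD hL t) (Or.inl rfl) hα hnd
  have h4 : cs α (pD (πL π t) (eL e t)) = cs α (pD π e) +
      ∑ i : {x : Ei // x ∈ S}, cs α i.1 * t i := by
    rw [leaf_pD, cs_mul' hα h1 hpr]
    congr 1
    rw [Pool.Agent.Y715.T.RecG.cs_prod hα.prime hα.norm _ _
      fun i _ h5 => h2 i.1 i.2 (hα.prime.dvd_of_dvd_pow h5)]
    refine Finset.sum_congr rfl fun i _ => ?_
    rw [Pool.Agent.Y715.T.RecG.cs_pow hα.prime hα.norm (h2 i.1 i.2), ZMod.natCast_zmod_val, mul_comm]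
  unfold gg
  rw [h3, h4, neg_add]
  have hz3 : toC w ^ 3 = 1 := by rw [← map_pow, w_cube, map_one]
  have h5 : -(∑ i : {x : Ei // x ∈ S}, cs α i.1 * t i) =
      ∑ i : {x : Ei // x ∈ S}, (-cs α i.1) * t i := by
    rw [← Finset.sum_neg_distrib]
    exact Finset.sum_congr rfl fun i _ => (neg_mul _ _).symm
  rw [h5, pow_add_val hz3, map_mul, map_pow]
  ring

/-- **The half Euler product over `F = K(∛(dd (a i)))`.** -/
theorem halfK' {K : Type} [Field K] [NumberField K] (j : Ei ≃+* 𝓞 K) {J : Type} [Fintype J]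
    [Nonempty J] {π : J → Ei} {e : J → ZMod 3} (hD : Dt π e)
    (h9 : ¬ (9 : ℤ) ∣ nr (pD π e) - 1) {S : Finset Ei}
    (hL : LeafP π S) (hKer : ∀ t : {x : Ei // x ∈ S} → ZMod 3, Ker (πL π t) (eL e t)) {F : Type} [Field F] [NumberField F] [Algebra K F] {m : ℕ}
    (a : Fin m → {x : Ei // x ∈ S} → ZMod 3) (ha : LinearIndependent (ZMod 3) a) (x : Fin m → 𝓞 F)
    (hx : ∀ i, x i ^ 3 = io F j (dd (a i)))
    (hgen : ∀ L : Subfield F, (∀ k : K, algebraMap K F k ∈ L) → (∀ i, (x i : F) ∈ L) → L = ⊤)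
    {M : Ei} (hM0 : M ≠ 0) (hM3 : (3 : Ei) ∣ M)
    (hMp : ∀ α : Ei, Pq α → ¬ α ∣ M → ¬ α ∣ pD π e ∧ ∀ l ∈ S, ¬ α ∣ l) :
    (∀ v : HeightOneSpectrum (𝓞 F), io F j M ∉ v.asIdeal →
      ∃ (α : Ei) (f : ℕ), Pq α ∧ ¬ α ∣ M ∧ io F j α ∈ v.asIdeal ∧ ¬ α ∣ pD π e ∧
        qv v = (nr α).natAbs ^ f) ∧
    ∃ G : ℂ → ℂ, Differentiable ℂ G ∧ G 1 ≠ 0 ∧ ∀ s : ℂ, 3 / 2 < s.re →
      HasProd (fun v : {v : HeightOneSpectrum (𝓞 F) | io F j M ∉ v.asIdeal} =>
        hv (io F j) (pD π e) s v.1) (G s) := by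
  obtain ⟨hgal, hdeg⟩ := deg_I (F := F) j hL.pq a ha x (fun i => by
    have h1 := congrArg (fun z : 𝓞 F => (z : F)) (hx i)
    simp only [map_pow] at h1
    rw [io_coe] at h1
    exact h1) hgen
  have hφ : Function.Injective (io F j) := io_inj j
  -- the prime below
  have hex : ∀ v : {v : HeightOneSpectrum (𝓞 F) | io F j M ∉ v.asIdeal},
      ∃ α : {α : Ei // Pq α ∧ ¬ α ∣ M}, io F j α.1 ∈ v.1.asIdeal := by
    intro v
    have h3 : (3 : 𝓞 F) ∉ v.1.asIdeal := by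
      intro h
      apply v.2
      obtain ⟨c, hc⟩ := hM3
      have h5 : io F j M = 3 * io F j c := by rw [hc, map_mul, map_ofNat]
      have h6 : (3 : 𝓞 F) * io F j c ∈ (v.1.asIdeal : Set (𝓞 F)) := Ideal.mul_mem_right _ _ h
      exact Set.mem_of_eq_of_mem h5 h6
    obtain ⟨α, h4, h5⟩ := below hφ h3
    refine ⟨⟨α, h4, fun h6 => v.2 ?_⟩, h5⟩
    exact (mem_iff (io F j) h4 h5 M).2 h6
  choose β hβ using hex
  have hβu : ∀ (v : {v : HeightOneSpectrum (𝓞 F) | io F j M ∉ v.asIdeal})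
      (b : {α : Ei // Pq α ∧ ¬ α ∣ M}), io F j b.1 ∈ v.1.asIdeal → β v = b := by
    intro v b hb
    apply Subtype.ext
    exact pq_dvd (β v).2.1 b.2.1 ((mem_iff (io F j) (β v).2.1 (hβ v) b.1).1 hb)
  have hsp := fun b : {α : Ei // Pq α ∧ ¬ α ∣ M} =>
    splitV (F := F) j (fun i => dd (a i)) x hx hgen b.2.1
      (fun i => not_dvd_dd b.2.1 (hMp _ b.2.1 b.2.2).2 (a i))
  refine ⟨fun v hv => ⟨(β ⟨v, hv⟩).1, _, (β ⟨v, hv⟩).2.1, (β ⟨v, hv⟩).2.2, hβ ⟨v, hv⟩,
    (hMp _ (β ⟨v, hv⟩).2.1 (β ⟨v, hv⟩).2.2).1, (hsp (β ⟨v, hv⟩)).1 v (hβ ⟨v, hv⟩)⟩, ?_⟩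
  -- the functions of the twists
  have hA := fun t : Fin m → ZMod 3 =>
    Pool.Agent.Y696.CTE.val_ne (Pool.Agent.R432.JG.leaf_dt hD hL (∑ i, t i • a i)) (hKer (∑ i, t i • a i))
      (Pool.Agent.R432.JG.leaf_nine hL h9 (∑ i, t i • a i))
  choose L0 hL01 hL02 using hA
  choose L hL1 hL2 hL3 using fun t : Fin m → ZMod 3 =>
    gm (Pool.Agent.R432.JG.leaf_dt hD hL (∑ i, t i • a i)).pq (hL01 t) (hL02 t) hM0
  refine ⟨fun s => ∏ t : Fin m → ZMod 3, L t s, ?_, ?_, fun s hs => ?_⟩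
  · exact Differentiable.fun_finsetProd fun t _ => hL1 t
  · exact Finset.prod_ne_zero_iff.2 fun t _ => hL2 t
  · set h : {α : Ei // Pq α ∧ ¬ α ∣ M} → ℂ := fun b => ∏ t : Fin m → ZMod 3,
      (1 - gg (πL π (∑ i, t i • a i)) (fun i => -eL e (∑ i, t i • a i) i) s b.1)⁻¹ with hh
    rw [← (Equiv.sigmaFiberEquiv β).hasProd_iff]
    refine HasProd.sigma_of_hasProd (g := h) ?_ (fun b => ?_) ?_
    · exact hasProd_prod (s := (Finset.univ : Finset (Fin m → ZMod 3))) fun t _ => hL3 t s hs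
    · set f := fo (fun i => dd (a i)) b.1 with hf
      obtain ⟨hs1, hs2⟩ := hsp b
      rw [← hf, hdeg] at hs2
      have hf0 : 0 < f := by
        rw [hf]
        unfold fo
        split_ifs <;> norm_num
      -- the fibre
      let E : {v : {v : HeightOneSpectrum (𝓞 F) | io F j M ∉ v.asIdeal} // β v = b} ≃
          {v : HeightOneSpectrum (𝓞 F) // io F j b.1 ∈ v.asIdeal} :=
        { toFun := fun v => ⟨v.1.1, by have h1 := hβ v.1; rwa [v.2] at h1⟩
          invFun := fun v => ⟨⟨v.1, fun h1 => b.2.2 ((mem_iff (io F j) b.2.1 v.2 M).1 h1)⟩,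
            hβu _ _ v.2⟩
          left_inv := fun v => rfl
          right_inv := fun v => rfl }
      have hfin : Finite {v : HeightOneSpectrum (𝓞 F) // io F j b.1 ∈ v.asIdeal} := by
        refine Nat.finite_of_card_ne_zero fun h0 => ?_
        rw [h0, zero_mul] at hs2
        exact absurd hs2.symm (by positivity)
      have hfin' : Finite {v : {v : HeightOneSpectrum (𝓞 F) | io F j M ∉ v.asIdeal} // β v = b} :=
        Finite.of_equiv _ E.symm
      let _ : Fintype {v : {v : HeightOneSpectrum (𝓞 F) | io F j M ∉ v.asIdeal} // β v = b} :=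
        Fintype.ofFinite _
      have hN : Fintype.card {v : {v : HeightOneSpectrum (𝓞 F) | io F j M ∉ v.asIdeal} // β v = b} =
          3 ^ Fintype.card (Fin m) / f := by
        rw [← Nat.card_eq_fintype_card, Nat.card_congr E, Fintype.card_fin, ← hs2,
          Nat.mul_div_cancel _ hf0]
      have hnn : (((nr b.1).natAbs : ℕ) : ℂ) = ((nr b.1 : ℤ) : ℂ) := by
        have h5 := Int.natAbs_of_nonneg (nr_nonneg b.1)
        have h6 : (((nr b.1).natAbs : ℤ) : ℂ) = ((nr b.1 : ℤ) : ℂ) := by rw [h5]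
        exact (Int.cast_natCast _).symm.trans h6
      set X : ℂ := toC (w ^ (-cs b.1 (pD π e)).val * b.1) with hX
      set Q : ℂ := ((nr b.1 : ℤ) : ℂ) ^ (-s) with hQ
      have hconst : ∀ v : {v : {v : HeightOneSpectrum (𝓞 F) | io F j M ∉ v.asIdeal} // β v = b},
          hv (io F j) (pD π e) s v.1.1 = (1 - (X * Q) ^ f)⁻¹ := by
        intro v
        have hv' : io F j b.1 ∈ v.1.1.asIdeal := by have h1 := hβ v.1; rwa [v.2] at h1
        rw [hv_eq (io F j) (pD π e) s b.2.1 hv' (hs1 v.1.1 hv')]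
        have hq : (qv v.1.1 : ℂ) ^ (-s) = Q ^ f := by
          unfold qv
          rw [hs1 v.1.1 hv', ← hf, Nat.cast_pow, npow, hnn, hQ]
        rw [hq, mul_pow]
      have hval : h b = ∏ _v : {v : {v : HeightOneSpectrum (𝓞 F) | io F j M ∉ v.asIdeal} // β v = b},
          (1 - (X * Q) ^ f)⁻¹ := by
        rw [Finset.prod_const, Finset.card_univ, hN, inv_pow, hh]
        simp only
        have hz : toC w ^ 2 + toC w + 1 = 0 := by
          have h1 : (w : Ei) ^ 2 + w + 1 = 0 := by decide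
          rw [← map_pow, ← map_add, ← map_one toC, ← map_add, h1, map_zero]
        have hc1 : (∀ i, -cs b.1 (dd (a i)) = 0) → f = 1 := by
          intro h1
          rw [hf]
          unfold fo
          rw [if_pos fun i => neg_eq_zero.1 (h1 i)]
        have hc3 : ¬ (∀ i, -cs b.1 (dd (a i)) = 0) → f = 3 := by
          intro h1
          rw [hf]
          unfold fo
          rw [if_neg fun h2 => h1 fun i => neg_eq_zero.2 (h2 i)]
        rw [Finset.prod_inv_distrib]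
        obtain ⟨g1, g2⟩ := hMp _ b.2.1 b.2.2
        congr 1
        rw [← loc (fun i => -cs b.1 (dd (a i))) hz (X * Q) hc1 hc3]
        refine Finset.prod_congr rfl fun t _ => ?_
        rw [gg_tw' hD hL (∑ i, t i • a i) b.2.1 g1 g2 s]
        congr 3
        have h1 : ∀ l : {x : Ei // x ∈ S}, (-cs b.1 l.1) * (∑ i, t i • a i) l =
            ∑ i, -(t i * (a i l * cs b.1 l.1)) := by
          intro l
          rw [Finset.sum_apply, Finset.mul_sum]
          refine Finset.sum_congr rfl fun i _ => ?_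
          rw [Pi.smul_apply, smul_eq_mul]
          ring
        rw [Finset.sum_congr rfl fun l _ => h1 l, Finset.sum_comm]
        congr 1
        refine Finset.sum_congr rfl fun i _ => ?_
        rw [cs_dd b.2.1 g2, Finset.sum_neg_distrib, ← Finset.mul_sum]
        ring
      rw [hval]
      refine (hasProd_fintype _).congr_fun fun v => ?_
      exact (hconst v)
    · refine ((Equiv.sigmaFiberEquiv β).multipliable_iff).2 (mult_hv (fun v hv => ?_) hs)
      exact ⟨(β ⟨v, hv⟩).1, _, (β ⟨v, hv⟩).2.1, hβ ⟨v, hv⟩,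
        (hMp _ (β ⟨v, hv⟩).2.1 (β ⟨v, hv⟩).2.2).1, (hsp (β ⟨v, hv⟩)).1 v (hβ ⟨v, hv⟩)⟩

end Pool.Agent.NH4.CG
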