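import Pool.Agent.R432.C7
import Pool.Agent.R432.JG.G1

/-! The points over `F = K(∛l : l ∈ S)`, if all the twists are good. -/

set_option autoImplicit false
set_option linter.unusedSectionVars false

open NumberField Polynomial

namespace Pool.Agent.NH4.CG

open Pool.Agent.Y692.QS
open Pool.Agent.Y715.T.Rec (cs)
open Pool.Agent.Y715.T.RecG (Pq)
open Pool.Agent.Y703.CT (Dt pD Ker descK)
open Pool.Agent.R432.C hiding leaf_dt leaf_nine leaf_ker
open Pool.Agent.R432.JG (LeafP)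

variable {K : Type} [Field K] [NumberField K] (j : Ei ≃+* 𝓞 K)

theorem towerP {J : Type} [Fintype J] [Nonempty J] {π : J → Ei} {e : J → ZMod 3} (hD : Dt π e)
    (h9 : ¬ (9 : ℤ) ∣ nr (pD π e) - 1) {S : Finset Ei}
    (hL : LeafP π S) (hKer : ∀ t : {x : Ei // x ∈ S} → ZMod 3, Ker (πL π t) (eL e t))
    {F : Type} [Field F] [NumberField F] [Algebra K F] (x : Ei → F)
    (hx : ∀ l ∈ S, x l ^ 3 = algebraMap K F ((j l : 𝓞 K) : K))
    (hgen : ∀ L : Subfield F, (∀ k : K, algebraMap K F k ∈ L) → (∀ l ∈ S, x l ∈ L) → L = ⊤) :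
    Finite (ED (algebraMap K F ((j (pD π e) : 𝓞 K) : K))).toAffine.Point := by
  classical
  have hω := om_K j
  obtain ⟨hfd, hgal⟩ := gal3 (F := F) hω (I := {x : Ei // x ∈ S}) (fun i => ((j i.1 : 𝓞 K) : K))
    (fun i => x i.1) (fun i => hx i.1 i.2) (fun L h1 h2 => hgen L h1 fun l hl => h2 ⟨l, hl⟩)
  have hne : ∀ z : Ei, z ≠ 0 → ((j z : 𝓞 K) : K) ≠ 0 := by
    intro z hz h
    have h1 : (j z : 𝓞 K) = 0 := by exact_mod_cast h
    exact hz ((map_eq_zero_iff j j.injective).1 h1)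
  have hl0 : ∀ i : {x : Ei // x ∈ S}, ((j i.1 : 𝓞 K) : K) ≠ 0 := fun i =>
    hne _ (hL.pq _ i.2).prime.ne_zero
  have hD0 : ((j (pD π e) : 𝓞 K) : K) ≠ 0 := hne _ (Pool.Agent.Y153.CTRAM.ne_zero_of hD)
  have htw : ∀ t : {x : Ei // x ∈ S} → ZMod 3, ((j (pD (πL π t) (eL e t)) : 𝓞 K) : K) =
      ((j (pD π e) : 𝓞 K) : K) * ∏ i, ((j i.1 : 𝓞 K) : K) ^ (t i).val := by
    intro t
    rw [leaf_pD, map_mul, map_prod]
    push_cast
    congr 1
    refine Finset.prod_congr rfl fun i _ => ?_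
    rw [map_pow]
    push_cast
    rfl
  have hbase : ∀ t : {x : Ei // x ∈ S} → ZMod 3,
      Finite (ED (((j (pD π e) : 𝓞 K) : K) * ∏ i, ((j i.1 : 𝓞 K) : K) ^ (t i).val)).toAffine.Point := by
    intro t
    have hDt := Pool.Agent.R432.JG.leaf_dt hD hL t
    have hKt := hKer t
    have h9t := Pool.Agent.R432.JG.leaf_nine hL h9 t
    have hne' : pD (πL π t) (eL e t) ≠ 0 := Pool.Agent.Y153.CTRAM.ne_zero_of hDt
    rw [← htw]
    exact (Pool.Agent.Y696.CTK.parts.mwt Pool.Agent.Y696.CTK.parts.trf K j _ hne'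
        fun i₀ hi u a hT => (descK hDt hKt h9t hT).2).1
  exact pts hω (fun i : {x : Ei // x ∈ S} => ((j i.1 : 𝓞 K) : K)) (fun i => x i.1) hl0
      (fun i => hx i.1 i.2) (fun L h1 h2 => hgen L h1 fun l hl => h2 ⟨l, hl⟩) hD0 hbase

end Pool.Agent.NH4.CG
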