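import Pool.Agent.NH4.CF.Main
import Pool.Agent.NH4.CG.Half
import Pool.Agent.NH4.CG.Pts

/-! All number fields inside `ℚ(ω)(∛l : l ∈ S)`, if all the twists are good. -/

set_option autoImplicit false
set_option linter.unusedSectionVars false

open NumberField IsDedekindDomain Filter Complex
open scoped Topology Classical

namespace Pool.Agent.NH4.CG

open Pool.Agent.Y692.QS hiding chi
open Pool.Agent.Y715.T.Rec (cs nn)
open Pool.Agent.Y715.T.RecG (Pq cs_spec)
open Pool.Agent.Y703.CT (IsHL chD Dt pD Ker Cls NoSplit)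
open Pool.Agent.R432.C (πL eL ED om_K)
open Pool.Agent.R432.V hiding gg_tw
open Pool.Agent.R432.JG (LeafP)
open Pool.Agent.NH4.CF

section

variable {K : Type} [Field K] [NumberField K] (j : Ei ≃+* 𝓞 K) {J : Type} [Fintype J] [Nonempty J]
  {π : J → Ei} {e : J → ZMod 3} {D : ℕ}

/-- the two Euler products over a field that contains `ω` -/
theorem halfE' (hD : Dt π e) (hDp : (D : Ei) = pD π e ∨ (D : Ei) = -pD π e)
    (h9 : ¬ (9 : ℤ) ∣ nr (pD π e) - 1) {S : Finset Ei}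
    (hL : LeafP π S) (hKer : ∀ t : {x : Ei // x ∈ S} → ZMod 3, Ker (πL π t) (eL e t)) (hD0 : D ≠ 0) {E : Type} [Field E] [NumberField E] [Algebra K E] {m : ℕ}
    (a : Fin m → {x : Ei // x ∈ S} → ZMod 3) (ha : LinearIndependent (ZMod 3) a) (x : Fin m → 𝓞 E)
    (hx : ∀ i, x i ^ 3 = io E j (dd (a i)))
    (hgen : ∀ L : Subfield E, (∀ g : Ei, ((io E j g : 𝓞 E) : E) ∈ L) → (∀ i, (x i : E) ∈ L) → L = ⊤) :
    (∀ v : HeightOneSpectrum (𝓞 E), ((Bd D S : ℕ) : 𝓞 E) ∉ v.asIdeal →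
      ∃ (α : Ei) (f : ℕ), Pq α ∧ io E j α ∈ v.asIdeal ∧ ¬ α ∣ ((D : ℕ) : Ei) ∧
        qv v = (nr α).natAbs ^ f) ∧
    ∃ G : ℂ → ℂ, Differentiable ℂ G ∧ G 1 ≠ 0 ∧ ∀ s : ℂ, 3 / 2 < s.re →
      HasProd (fun v : {v : HeightOneSpectrum (𝓞 E) | ((Bd D S : ℕ) : 𝓞 E) ∉ v.asIdeal} =>
        hv (io E j) ((D : ℕ) : Ei) s v.1) (G s) := by
  have hM0 : ((Bd D S : ℕ) : Ei) ≠ 0 := by
    intro h
    have h1 := congrArg (fun z : Ei => z.re) h
    simp only [QuadraticAlgebra.re_natCast, QuadraticAlgebra.re_zero] at h1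
    exact Bd_ne hD0 hL.pq (by exact_mod_cast h1)
  have hM3 : (3 : Ei) ∣ ((Bd D S : ℕ) : Ei) := by
    unfold Bd
    push_cast
    exact (Dvd.intro _ rfl : (3 : Ei) ∣ 3 * (D : Ei)).mul_right _
  have hDM : ((D : ℕ) : Ei) ∣ ((Bd D S : ℕ) : Ei) := by
    unfold Bd
    push_cast
    exact (Dvd.intro_left _ rfl : (D : Ei) ∣ 3 * (D : Ei)).mul_right _
  have hDd : ∀ α : Ei, α ∣ pD π e ↔ α ∣ ((D : ℕ) : Ei) := by
    intro α
    rcases hDp with h | h
    · rw [h]
    · rw [h, dvd_neg]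
  obtain ⟨h1, G, h2, h3, h4⟩ := halfK' j hD h9 hL hKer a ha x hx
    (fun L h1 h2 => hgen L (fun g => by rw [io_coe]; exact h1 _) h2) hM0 hM3
    (fun α hα hd => ⟨fun h => hd (((hDd α).1 h).trans hDM), fun l hl h => hd (h.trans (dvd_Bd hl))⟩)
  rw [io_nat] at h1
  have hfac : ∀ v : HeightOneSpectrum (𝓞 E), ((Bd D S : ℕ) : 𝓞 E) ∉ v.asIdeal →
      ∃ (α : Ei) (f : ℕ), Pq α ∧ io E j α ∈ v.asIdeal ∧ ¬ α ∣ ((D : ℕ) : Ei) ∧
        qv v = (nr α).natAbs ^ f := by
    intro v hv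
    obtain ⟨α, f, g1, -, g2, g3, g4⟩ := h1 v hv
    exact ⟨α, f, g1, g2, fun h => g3 ((hDd α).2 h), g4⟩
  refine ⟨hfac, G, h2, h3, fun s hs => ?_⟩
  have h5 := h4 s hs
  rw [io_nat] at h5
  refine h5.congr_fun fun v => ?_
  obtain ⟨α, f, g1, g2, g3, g4⟩ := hfac v.1 v.2
  rcases hDp with h | h
  · rw [h]
  · rw [h]
    refine (hv_neg (io E j) s g1 g2 ?_ g4)
    rw [hDd]
    exact g3

theorem main_mem' (hD : Dt π e) (hDp : (D : Ei) = pD π e ∨ (D : Ei) = -pD π e)
    (h9 : ¬ (9 : ℤ) ∣ nr (pD π e) - 1) {S : Finset Ei}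
    (hL : LeafP π S) (hKer : ∀ t : {x : Ei // x ∈ S} → ZMod 3, Ker (πL π t) (eL e t)) (hD0 : D ≠ 0) {F M : Type} [Field F] [NumberField F] [Field M]
    [NumberField M] [Algebra K M] [Algebra F M] (r : {x : Ei // x ∈ S} → M)
    (hr : ∀ l, r l ^ 3 = algebraMap K M ((j l.1 : 𝓞 K) : K))
    (hgen : ∀ L : Subfield M, (∀ k : K, algebraMap K M k ∈ L) → (∀ l, r l ∈ L) → L = ⊤) :
    RZ F D := by
  let ι : Ei →+* M := (algebraMap K M).comp ((algebraMap (𝓞 K) K).comp (j : Ei →+* 𝓞 K))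
  have hιa : ∀ g, ι g = algebraMap K M ((j g : 𝓞 K) : K) := fun g => rfl
  have hgen' : ∀ L : Subfield M, (∀ g, ι g ∈ L) → (∀ l, r l ∈ L) → L = ⊤ := by
    intro L h1 h2
    refine hgen L (fun k => ?_) h2
    obtain ⟨a, b, -, rfl⟩ := IsFractionRing.div_surjective (A := 𝓞 K) k
    rw [map_div₀]
    obtain ⟨a', rfl⟩ := j.surjective a
    obtain ⟨b', rfl⟩ := j.surjective b
    exact div_mem (h1 a') (h1 b')
  have h3D : 3 * D ∣ Bd D S := Dvd.intro _ rfl
  have h3B : 3 ∣ Bd D S := (Dvd.intro _ rfl : 3 ∣ 3 * D).trans h3D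
  refine ⟨?_, Bd D S, Bd_ne hD0 hL.pq, h3D, ?_⟩
  · -- the points
    have h1 : Finite (ED (algebraMap K M ((j (pD π e) : 𝓞 K) : K))).toAffine.Point := by
      have h2 := towerP j hD h9 hL hKer (F := M)
        (fun l => if h : l ∈ S then r ⟨l, h⟩ else 0)
        (fun l hl => by rw [dif_pos hl]; exact hr ⟨l, hl⟩)
        (fun L h1 h2 => hgen L h1 fun l => by
          have h3 := h2 l.1 l.2
          rwa [dif_pos l.2] at h3)
      exact h2
    have h2 : Finite (ED ((D : ℕ) : M)).toAffine.Point := by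
      rcases hDp with h | h
      · have e1 : algebraMap K M ((j (pD π e) : 𝓞 K) : K) = ((D : ℕ) : M) := by
          rw [← h, map_natCast]
          have e2 : ((((D : ℕ) : 𝓞 K)) : K) = ((D : ℕ) : K) := by push_cast; rfl
          rw [e2, map_natCast]
        rwa [e1] at h1
      · have e1 : algebraMap K M ((j (pD π e) : 𝓞 K) : K) = -((D : ℕ) : M) := by
          have h3 : pD π e = -((D : ℕ) : Ei) := by rw [h, neg_neg]
          rw [h3, map_neg, map_natCast]
          have e2 : ((-((D : ℕ) : 𝓞 K) : 𝓞 K) : K) = -((D : ℕ) : K) := by push_cast; rfl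
          rw [e2, map_neg, map_natCast]
        rw [e1] at h1
        have hS := Pool.Agent.R432.C.sED (RingHom.id M) (u := -1) (by norm_num)
          (a := ((D : ℕ) : M)) (b := -((D : ℕ) : M)) (by
            rw [RingHom.id_apply]; ring)
        refine Finite.of_injective (Pool.Agent.R432.C.tH hS) ?_
        rw [injective_iff_map_eq_zero]
        intro P hP
        match P with
        | 0 => rfl
        | .some x y hxy =>
          obtain ⟨h', h4⟩ := Pool.Agent.R432.C.tH_some hS x y hxy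
          rw [h4] at hP
          cases hP
    exact Pool.Agent.R432.Q.pts_sub (k := F) (F := M) h2
  · by_cases hF : ∃ x : F, algebraMap F M x = algebraMap K M ((j w : 𝓞 K) : K)
    · -- the field contains `ω`
      obtain ⟨f, hf⟩ := exists_KF j hF
      let _ : Algebra K F := f.toAlgebra
      have hι : ∀ g, algebraMap F M ((io F j g : 𝓞 F) : F) = ι g := by
        intro g
        rw [io_coe]
        exact hf _
      obtain ⟨m, a, x, ha, hx, hg⟩ := exists_I (io F j) ι hι S hL.pq r hr hgen'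
      obtain ⟨hfac, G, h2, h3, h4⟩ := halfE' j hD hDp h9 hL hKer hD0 a ha x hx hg
      refine ⟨fun s => G s * (starRingEnd ℂ) (G ((starRingEnd ℂ) s)), ?_, ?_, fun s hs => ?_⟩
      · refine h2.mul ?_
        intro s
        have h1 := (h2 ((starRingEnd ℂ) s)).conj_conj
        rw [Complex.conj_conj] at h1
        exact h1
      · change G 1 * (starRingEnd ℂ) (G ((starRingEnd ℂ) 1)) ≠ 0
        rw [map_one]
        exact mul_ne_zero h3 ((map_ne_zero _).2 h3)
      · have hsc : 3 / 2 < ((starRingEnd ℂ) s).re := by rwa [Complex.conj_re]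
        have h5 := (h4 s hs).mul ((h4 _ hsc).map (starRingEnd ℂ) Complex.continuous_conj)
        refine h5.congr_fun fun v => ?_
        obtain ⟨α, f', g1, g2, g3, g4⟩ := hfac v.1 v.2
        rw [← io_nat (F := F) (j := j) D]
        exact ef_hv (io F j) s g1 g2 g3 g4
    · -- the field does not contain `ω`
      push Not at hF
      let E : IntermediateField F M := IntermediateField.adjoin F {ι w}
      have hwE : ι w ∈ E := IntermediateField.mem_adjoin_simple_self F _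
      obtain ⟨f, hf⟩ := exists_KF (E := E) (M := M) j ⟨⟨ι w, hwE⟩, rfl⟩
      let _ : Algebra K E := f.toAlgebra
      have hι : ∀ g, algebraMap E M ((io E j g : 𝓞 E) : E) = ι g := by
        intro g
        rw [io_coe]
        exact hf _
      obtain ⟨m, a, x, ha, hx, hg⟩ := exists_I (io E j) ι hι S hL.pq r hr hgen'
      obtain ⟨hfac, G, h2, h3, h4⟩ := halfE' j hD hDp h9 hL hKer hD0 a ha x hx hg
      have hwe : ((io E j w : 𝓞 E) : E) = ⟨ι w, hwE⟩ := Subtype.ext (hι w)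
      have hQ : Qd F (io E j w) := by
        refine ⟨io_w, ?_, ?_⟩
        · intro L hLw
          rw [hwe] at hLw
          have h1 : E ≤ L.map E.val := by
            rw [IntermediateField.adjoin_le_iff, Set.singleton_subset_iff]
            exact ⟨_, hLw, rfl⟩
          rw [eq_top_iff]
          intro y _
          obtain ⟨z, hz, hzy⟩ := h1 y.2
          have : z = y := Subtype.ext hzy
          rw [← this]
          exact hz
        · intro y hy
          apply hF y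
          rw [hwe] at hy
          exact congrArg (fun z : E => (z : M)) hy
      exact ⟨G, h2, h3, fun s hs => euler_L hQ h3B hfac s (h4 s hs)⟩

end

/-- **The main theorem.** -/
theorem main' {K : Type} [Field K] [NumberField K] (j : Ei ≃+* 𝓞 K) (σ : K →+* ℂ) {D : ℕ}
    (hD0 : D ≠ 0) {J : Type} [Fintype J] [Nonempty J] {π : J → Ei} {e : J → ZMod 3}
    (hD : Dt π e) (hDp : (D : Ei) = pD π e ∨ (D : Ei) = -pD π e)
    (h9 : ¬ (9 : ℤ) ∣ nr (pD π e) - 1) {R : Set Ei}
    (hR : ∀ S : Finset Ei, (∀ l ∈ S, l ∈ R) → LeafP π S ∧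
      ∀ t : {x : Ei // x ∈ S} → ZMod 3, Ker (πL π t) (eL e t))
    {F : Type} [Field F] [NumberField F] (φ : F →+* ℂ)
    (hφ : ∀ x, φ x ∈ Om σ ((fun l : Ei => ((j l : 𝓞 K) : K)) '' R)) : RZ F D := by
  obtain ⟨S', hS', hφS'⟩ := exists_fin_field φ hφ
  -- the finite set of primes
  have hJ : Function.Injective (fun l : Ei => ((j l : 𝓞 K) : K)) := by
    intro a b hab
    exact j.injective (RingOfIntegers.ext hab)
  obtain ⟨S, hSR, hSS'⟩ : ∃ S : Finset Ei, (∀ l ∈ S, l ∈ R) ∧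
      S.image (fun l : Ei => ((j l : 𝓞 K) : K)) = S' := by
    have hpre : ∀ l : Ei, l ∈ S'.preimage (fun l : Ei => ((j l : 𝓞 K) : K)) hJ.injOn ↔
        ((j l : 𝓞 K) : K) ∈ S' :=
      fun l => Finset.mem_preimage (f := fun l : Ei => ((j l : 𝓞 K) : K)) (s := S')
    refine ⟨S'.preimage (fun l : Ei => ((j l : 𝓞 K) : K)) hJ.injOn, ?_, ?_⟩
    · intro l hl
      have hl2 : ((j l : 𝓞 K) : K) ∈ S' := (hpre l).1 hl
      obtain ⟨l', hl', h1⟩ := hS' _ hl2
      have h2 : l' = l := hJ h1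
      exact h2 ▸ hl'
    · ext k
      constructor
      · intro hk
        obtain ⟨l, hl, h1⟩ := Finset.mem_image.1 hk
        have hl2 : ((j l : 𝓞 K) : K) ∈ S' := (hpre l).1 hl
        have h1' : ((j l : 𝓞 K) : K) = k := h1
        exact h1' ▸ hl2
      · intro hk
        obtain ⟨l, hl, h1⟩ := hS' k hk
        have h1' : ((j l : 𝓞 K) : K) = k := h1
        refine Finset.mem_image.2 ⟨l, (hpre l).2 ?_, h1'⟩
        exact h1'.symm ▸ hk
  obtain ⟨hL, hKer⟩ := hR S hSR
  set T : Set K := (S' : Set K) with hT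
  have hM : NumberField (Om σ T) := num_Om S'
  let φM : F →+* Om σ T := φ.codRestrict _ hφS'
  let _ : Algebra F (Om σ T) := φM.toAlgebra
  let σM : K →+* Om σ T := σ.codRestrict _ (K_mem T)
  let _ : Algebra K (Om σ T) := σM.toAlgebra
  choose rt hrt using fun l : Ei =>
    IsAlgClosed.exists_pow_nat_eq (σ ((j l : 𝓞 K) : K)) (n := 3) (by norm_num)
  have hmem : ∀ l ∈ S, ((j l : 𝓞 K) : K) ∈ T := by
    intro l hl
    rw [hT, ← hSS', Finset.coe_image]
    exact ⟨l, hl, rfl⟩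
  have hrtm : ∀ l ∈ S, rt l ∈ Om σ T := fun l hl =>
    Subfield.subset_closure (Or.inr ⟨_, hmem l hl, hrt l⟩)
  refine main_mem' (F := F) (M := Om σ T) j hD hDp h9 hL hKer hD0
    (fun l => ⟨rt l.1, hrtm l.1 l.2⟩) (fun l => ?_) (fun L h1 h2 => ?_)
  · apply Subtype.ext
    exact hrt l.1
  · have h3 : Om σ T ≤ L.map (Om σ T).subtype := by
      unfold Om
      rw [Subfield.closure_le]
      rintro x (⟨k, rfl⟩ | ⟨p, hp, hx⟩)
      · exact ⟨σM k, h1 k, rfl⟩
      · rw [hT, ← hSS', Finset.coe_image] at hp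
        obtain ⟨l, hl, rfl⟩ := hp
        have h4 : rt l ∈ L.map (Om σ T).subtype := ⟨⟨rt l, hrtm l hl⟩, h2 ⟨l, hl⟩, rfl⟩
        have h5 : x ^ 3 = rt l ^ 3 := by rw [hx, hrt]
        have hw : σ ((j w : 𝓞 K) : K) ∈ L.map (Om σ T).subtype := ⟨σM _, h1 _, rfl⟩
        have hz : σ ((j w : 𝓞 K) : K) ^ 2 + σ ((j w : 𝓞 K) : K) + 1 = 0 := by
          rw [← map_pow, ← map_add, ← map_one σ, ← map_add, om_K j, map_zero]
        rcases cube_roots' hz h5 with h | h | h
        · rw [h]; exact h4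
        · rw [h]; exact mul_mem hw h4
        · rw [h]; exact mul_mem (pow_mem hw 2) h4
    rw [eq_top_iff]
    intro y _
    obtain ⟨z, hz, hzy⟩ := h3 y.2
    have : z = y := Subtype.ext hzy
    rw [← this]
    exact hz

end Pool.Agent.NH4.CG
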