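import Pool.Agent.NH4.CG.Ex2
import Pool.Agent.NH4.CG.Main
import Pool.Agent.NH4.CF.Br

/-! The final theorem over `ℤ[ω]`. -/

set_option autoImplicit false
set_option linter.unusedSectionVars false

open NumberField
open scoped Classical

namespace Pool.Agent.NH4.CG

open Pool.Agent.Y692.QS hiding chi
open Pool.Agent.Y715.T.Rec (cs)
open Pool.Agent.Y715.T.RecG (Pq)
open Pool.Agent.Y696.CT (pq_star inert)
open Pool.Agent.Y703.CT (Dt pD Ker)
open Pool.Agent.NH4.CF (RZ Om)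

theorem final {K : Type} [Field K] [NumberField K] (j : Ei ≃+* 𝓞 K) (σ : K →+* ℂ) {G : Finset Ei}
    (hG : ∀ l ∈ G, Pq l ∧ nr l % 9 = 1 ∧ star l ∈ G ∧ star l ≠ l) :
    ∃ R : Set Ei, (∀ l ∈ G, l ∈ R) ∧ R.Infinite ∧
      (∀ l ∈ R, Pq l ∧ nr l % 9 = 1 ∧ star l ∈ R ∧ star l ≠ l) ∧
      {D : ℕ | Squarefree D ∧ ∀ (F : Type) [Field F] [NumberField F] (φ : F →+* ℂ),
        (∀ x, φ x ∈ Om σ ((fun l : Ei => ((j l : 𝓞 K) : K)) '' R)) → RZ F D}.Infinite := by
  have hp2 : Pq (-((2 : ℕ) : Ei)) := inert Nat.prime_two (by norm_num)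
  set o : Ei := -((2 : ℕ) : Ei) with ho
  have hos : star o = o := by
    rw [ho, star_neg, star_natCast]
  have h4 : nr o = 4 := by decide
  obtain ⟨Q, f, h1, h2, h3, h5, h6⟩ := exists_Gad hp2 hos (G := G) (fun l hl => (hG l hl).1)
    (fun l hl => (hG l hl).2.1) (fun l hl => (hG l hl).2.2.1) (fun l hl => (hG l hl).2.2.2)
  have hex := fun n => exists_nat hos (Q := Qn Q f n) (fun x hx => (h2 n x hx).2)
  choose D hD using hex
  refine ⟨(G : Set Ei) ∪ Lv f, fun l hl => Or.inl hl, ?_, ?_, ?_⟩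
  · apply Set.Infinite.mono Set.subset_union_right
    refine Set.infinite_of_injective_forall_mem (f := fun k => f (2 * k)) (fun a b hab => ?_)
      (fun k => ⟨k, Or.inl rfl⟩)
    by_contra hne
    exact (h5 (2 * a) (2 * b) (by omega)).1 hab
  · rintro l (hl | ⟨k, rfl | rfl⟩)
    · obtain ⟨g1, g2, g3, g4⟩ := hG l hl
      exact ⟨g1, g2, Or.inl g3, g4⟩
    · obtain ⟨g1, g2, g3⟩ := h3 (2 * k)
      exact ⟨g1, g2, Or.inr ⟨k, Or.inr rfl⟩, g3⟩
    · obtain ⟨g1, g2, g3⟩ := h3 (2 * k)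
      refine ⟨pq_star g1, by rw [nr_star]; exact g2, Or.inr ⟨k, Or.inl (star_star _)⟩, ?_⟩
      rw [star_star]
      exact g3.symm
  · refine Set.infinite_of_injective_forall_mem (f := D) (fun m n hmn => ?_) (fun n => ⟨?_, ?_⟩)
    · by_contra hne
      have g1 : f (2 * m + 1) ∣ ((D m : ℕ) : Ei) :=
        ((h1 m).dvd (hD m) (h3 (2 * m + 1)).1).2
          (Finset.mem_insert_of_mem (Finset.mem_insert_self _ _))
      rw [hmn] at g1
      have g2 := ((h1 n).dvd (hD n) (h3 (2 * m + 1)).1).1 g1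
      rcases Finset.mem_insert.1 g2 with g3 | g3
      · exact (h6 (2 * m + 1)).2 g3
      · rcases Finset.mem_insert.1 g3 with g3 | g3
        · exact (h5 (2 * m + 1) (2 * n + 1) (by omega)).1 g3
        · rcases Finset.mem_insert.1 g3 with g3 | g3
          · exact (h5 (2 * n + 1) (2 * m + 1) (by omega)).2 g3.symm
          · exact (h6 (2 * m + 1)).1 g3
    · exact (h1 n).sqf (hD n)
    · intro F _ _ φ hφ
      have hne : Nonempty {x : Ei // x ∈ insert o (Qn Q f n)} := ⟨⟨o, Finset.mem_insert_self _ _⟩⟩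
      exact main' j σ ((h1 n).D_ne (hD n)) (h1 n).dt (hD n)
        (Gad.h9 (fun x hx => (h2 n x hx).1) h4 (h1 n).oQ)
        (fun S hS => ⟨(h1 n).leafP hS, fun t => (h1 n).ker hS t⟩) φ hφ

end Pool.Agent.NH4.CG
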